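import Mathlib
import Pool.Agent.TH779.Ord.Exact

/-! Coloured Maynard-Tao theorem with few repetitions inside the classes, optimal constant.
Adapted from `Pool.Agent.TH779.Ord` (the constant `1 / 40` is replaced by any number below `1 / 16`). -/

set_option autoImplicit false

namespace Pool.Agent.E8helper66.CP

open Finset Filter Topology
open Pool.Agent.H362R2.CM
open Pool.Agent.TH779.Ord (fn fn_le class_sum)
open Pool.Agent.H410R2 hiding GP GP_prof GP_cut_some GP_cut_none GP_lip gg_pos gg_le_one gg_anti ee_bound ee_nonneg gg_lip LB_gg LB_ee Sums exists_sums yx wx wxi Br sum_GP_none sum_GP_some sum_GP_some_ee sum_GP_some_one sum_GPr_none sum_GPr_some S1_final QI_final S2_final w_abs_le wmax gg ee I1 I2 IE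
open Pool.Agent.H361R2.GM

/-- the strict inequality at `ε = 0` -/
theorem base_opt (T : ℕ) (lam δ : ℝ) (hT1 : 1 ≤ T) (hlam : 1 ≤ lam) (hδ : 0 < δ) (hδ1 : δ ≤ 1) :
    ∃ (K : ℕ) (Q : SPar) (ρ : ℝ), 2 ≤ K ∧ 0 < ρ ∧
    ρ ≤ 1 / 16 ∧ 0 < Q.I1 ∧ 0 < Q.I2 ∧ 0 < Br Q (T * K) 0 ∧
    ((1 - δ) * T / (16 * lam) * (1 + 0) + 0) * Ac Q (T * K) 0 <
      T * (K * (ρ * βc Q (T * K) 0) - lam * ((K : ℝ) ^ 2 * γc Q (T * K) ρ 0)) := by
  have hT : (1 : ℝ) ≤ T := by exact_mod_cast hT1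
  have hl0 : 0 < lam := by linarith
  set s : ℝ := 7 + Real.log (8 / δ) with hs
  have h8 : 1 ≤ 8 / δ := by
    rw [le_div_iff₀ hδ]; linarith
  have hlog : 0 ≤ Real.log (8 / δ) := Real.log_nonneg h8
  set A : ℝ := 2 * s + 4 + 8 * T * (1 / δ) with hA
  have hδi : 1 ≤ 1 / δ := by rw [le_div_iff₀ hδ]; linarith
  have hs1 : 1 ≤ s := by rw [hs]; linarith
  have hTd : 0 ≤ 8 * T * (1 / δ) := by positivity
  have hAs : 2 * s + 4 ≤ A := by rw [hA]; linarith
  have hA4 : 4 ≤ A := by linarith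
  obtain ⟨K', hK'⟩ := exists_nat_ge (100 * s ^ 2 * Real.exp A)
  set K : ℕ := K' + 2 with hK
  have hKR : 100 * s ^ 2 * Real.exp A ≤ (K : ℝ) := by
    rw [hK]; push_cast; linarith
  have hK2 : 2 ≤ K := by omega
  have hK2R : (2 : ℝ) ≤ K := by exact_mod_cast hK2
  have hkK : (K : ℝ) ≤ ((T * K : ℕ) : ℝ) := by
    push_cast
    nlinarith
  obtain ⟨Q, hQG, hQc, hQl⟩ := exists_parS A s hA4 hs1 (T * K) (hKR.trans hkK)
  obtain ⟨hI1, hI2, hI2le, hBl, hBu⟩ := Br_zero_bounds A s hs1 hAs (T * K) (hKR.trans hkK) Q hQG hQc hQl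
  set k : ℕ := T * K with hk
  have hkcast : (k : ℝ) = T * K := by rw [hk]; push_cast; ring
  have hk2 : 2 ≤ k := by
    rw [hk]
    calc 2 ≤ K := hK2
      _ ≤ T * K := Nat.le_mul_of_pos_left K hT1
  have hK0 : (0 : ℝ) < K := by linarith
  have hk0 : (0 : ℝ) < k := by rw [hkcast]; positivity
  have hI1pos : 0 < Q.I1 := by rw [hI1]; positivity
  set v : ℝ := K * Q.I1 ^ 2 / Q.I2 with hv
  have hA0 : 0 < A := by linarith
  have hv1 : 8 * (1 / δ) ≤ v := by
    rw [hv, le_div_iff₀ hI2, hI1]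
    calc 8 * (1 / δ) * Q.I2 ≤ 8 * (1 / δ) * (1 / (A * k)) := by gcongr
      _ ≤ (A / T) * (1 / (A * k)) := by
          apply mul_le_mul_of_nonneg_right _ (by positivity)
          rw [le_div_iff₀ (by linarith), hA]
          linarith
      _ = 1 / (T * k) := by field_simp
      _ = K * (1 / (k : ℝ)) ^ 2 := by rw [hkcast]; field_simp
  have hv0 : 0 < v := by
    have : 0 < 8 * (1 / δ) := by positivity
    linarith
  set ρ : ℝ := 1 / (8 * lam * v) with hρ
  have hρ0 : 0 < ρ := by rw [hρ]; positivity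
  have hρ1 : ρ ≤ δ / 64 := by
    rw [hρ, div_le_iff₀ (by positivity)]
    have h1 : 8 * lam * (8 * (1 / δ)) ≤ 8 * lam * v := by gcongr
    have h2 : δ / 64 * (8 * lam * (8 * (1 / δ))) = lam := by field_simp; norm_num
    have h3 : δ / 64 * (8 * lam * (8 * (1 / δ))) ≤ δ / 64 * (8 * lam * v) := by gcongr
    linarith
  have hρv : ρ * v = 1 / (8 * lam) := by
    rw [hρ]; field_simp
  set η : ℝ := Real.exp (-s + 2) with hη
  have hη1 : η ≤ δ / 8 := by
    have h1 : η = Real.exp (-5) * Real.exp (-Real.log (8 / δ)) := by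
      rw [hη, ← Real.exp_add, hs]
      congr 1
      ring
    rw [h1, Real.exp_neg (Real.log (8 / δ)), Real.exp_log (by positivity)]
    have h2 : Real.exp (-5) ≤ 1 := Real.exp_le_one_iff.2 (by norm_num)
    have h3 : (8 / δ)⁻¹ = δ / 8 := by field_simp
    rw [h3]
    have : 0 < δ / 8 := by positivity
    nlinarith
  set P : ℝ := (1 / 3) * Q.I2 ^ (k - 2) with hP
  have hP0 : 0 < P := by positivity
  have hpow1 : (1 / 3) * Q.I2 ^ (k - 1) = P * Q.I2 := by
    have : k - 1 = (k - 2) + 1 := by omega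
    rw [this, pow_succ, hP]; ring
  have hpow2 : (1 / 3) * Q.I2 ^ k = P * Q.I2 ^ 2 := by
    have : k = (k - 2) + 2 := by omega
    rw [hP, mul_assoc, ← pow_add, ← this]
  set b : ℝ := Br Q k 0 / (P * Q.I2) with hb
  have hPI : 0 < P * Q.I2 := by positivity
  have hBb : Br Q k 0 = b * (P * Q.I2) := by
    rw [hb]; field_simp
  rw [hpow1] at hBl hBu
  have hb1 : 1 - δ / 8 ≤ b := by
    have : 1 - η ≤ b := by
      rw [hb, le_div_iff₀ hPI]; exact hBl
    linarith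
  have hb0 : 0 < b := by linarith
  have hBpos : 0 < Br Q k 0 := by rw [hBb]; positivity
  refine ⟨K, Q, ρ, hK2, hρ0, by linarith, hI1pos, hI2, hBpos, ?_⟩
  have hAc : Ac Q k 0 = P * Q.I2 ^ 2 := by
    unfold Ac
    rw [← hpow2]; simp
  have hβ : βc Q k 0 = Q.I1 ^ 2 * (b * (P * Q.I2)) := by
    unfold βc
    rw [hBb]; simp
  have hγ : γc Q k ρ 0 = ρ ^ 2 / (1 / 4 - 2 * ρ) * (Q.I1 ^ 4 * P) := by
    unfold γc
    rw [hP]; simp
  rw [hAc, hβ, hγ]
  have hq0 : 0 < 1 / 4 - 2 * ρ := by linarith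
  have e1 : K * (ρ * (Q.I1 ^ 2 * (b * (P * Q.I2)))) = P * Q.I2 ^ 2 * (ρ * v * b) := by
    rw [hv]; field_simp
  have e2 : (K : ℝ) ^ 2 * (ρ ^ 2 / (1 / 4 - 2 * ρ) * (Q.I1 ^ 4 * P)) =
      P * Q.I2 ^ 2 * ((ρ * v) ^ 2 / (1 / 4 - 2 * ρ)) := by
    rw [hv]; field_simp
  rw [e1, e2, hρv]
  have hPI2 : 0 < P * Q.I2 ^ 2 := by positivity
  have e3 : (T : ℝ) * (P * Q.I2 ^ 2 * (1 / (8 * lam) * b) -
      lam * (P * Q.I2 ^ 2 * ((1 / (8 * lam)) ^ 2 / (1 / 4 - 2 * ρ)))) =
      (T * (1 / (8 * lam) * b - lam * ((1 / (8 * lam)) ^ 2 / (1 / 4 - 2 * ρ)))) *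
        (P * Q.I2 ^ 2) := by ring
  rw [e3]
  apply mul_lt_mul_of_pos_right _ hPI2
  have h5 : (1 / (8 * lam)) ^ 2 / (1 / 4 - 2 * ρ) ≤ (1 / (8 * lam)) ^ 2 * (4 * (1 + δ / 4)) := by
    rw [div_le_iff₀ hq0]
    have h6 : 1 ≤ 4 * (1 + δ / 4) * (1 / 4 - 2 * ρ) := by nlinarith
    have h7 : 0 ≤ (1 / (8 * lam)) ^ 2 := sq_nonneg _
    calc (1 / (8 * lam)) ^ 2 = (1 / (8 * lam)) ^ 2 * 1 := (mul_one _).symm
      _ ≤ (1 / (8 * lam)) ^ 2 * (4 * (1 + δ / 4) * (1 / 4 - 2 * ρ)) :=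
          mul_le_mul_of_nonneg_left h6 h7
      _ = _ := by ring
  have h8 : lam * ((1 / (8 * lam)) ^ 2 / (1 / 4 - 2 * ρ)) ≤ (1 + δ / 4) / 16 * (1 / lam) := by
    calc lam * ((1 / (8 * lam)) ^ 2 / (1 / 4 - 2 * ρ)) ≤
        lam * ((1 / (8 * lam)) ^ 2 * (4 * (1 + δ / 4))) := by gcongr
      _ = (1 + δ / 4) / 16 * (1 / lam) := by field_simp; norm_num
  have h9 : (1 - δ / 8) / 8 * (1 / lam) ≤ 1 / (8 * lam) * b := by
    calc (1 - δ / 8) / 8 * (1 / lam) = 1 / (8 * lam) * (1 - δ / 8) := by field_simp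
      _ ≤ _ := by gcongr
  have hlinv : 0 < 1 / lam := by positivity
  have h10 : (1 - δ) * (T : ℝ) / (16 * lam) * (1 + 0) + 0 = T * ((1 - δ) / 16 * (1 / lam)) := by
    field_simp; ring
  rw [h10]
  apply mul_lt_mul_of_pos_left _ (by linarith)
  have h11 : 0 < (1 / lam) * δ := by positivity
  nlinarith

theorem num_opt (T : ℕ) (lam δ : ℝ) (hT1 : 1 ≤ T) (hlam : 1 ≤ lam) (hδ : 0 < δ) (hδ1 : δ ≤ 1) :
    ∃ (K : ℕ) (Q : SPar) (ρ ε : ℝ), 2 ≤ K ∧ 0 < ρ ∧
    ρ ≤ 1 / 16 ∧ 0 < ε ∧ ε < 1 / 3 ∧ ε < Q.I1 ∧ ε < Q.I2 ∧ 0 < Br Q (T * K) ε ∧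
    ((1 - δ) * T / (16 * lam) * (1 + ε) + ε) * Ac Q (T * K) ε <
      T * (K * (ρ * βc Q (T * K) ε) - lam * ((K : ℝ) ^ 2 * γc Q (T * K) ρ ε)) := by
  obtain ⟨K, Q, ρ, hK, hρ, hρ1, hI1, hI2, hB, hb⟩ := base_opt T lam δ hT1 hlam hδ hδ1
  have hcB : Continuous fun ε : ℝ => Br Q (T * K) ε := by
    unfold Br
    fun_prop
  have hcβ : Continuous fun ε : ℝ => βc Q (T * K) ε := by
    unfold βc
    fun_prop
  have hcA : Continuous fun ε : ℝ => Ac Q (T * K) ε := by
    unfold Ac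
    fun_prop
  have hcγ : ContinuousAt (fun ε : ℝ => γc Q (T * K) ρ ε) 0 := by
    unfold γc
    have h1 : ContinuousAt (fun ε : ℝ => (1 + ε) ^ 8 / (1 - ε) ^ 4) 0 := by
      apply ContinuousAt.div (by fun_prop) (by fun_prop)
      norm_num
    have h2 : ContinuousAt (fun ε : ℝ =>
        (Q.I1 + ε) ^ 4 * ((1 / 3 + ε) * (Q.I2 + ε) ^ (T * K - 2))) 0 := by fun_prop
    exact (continuousAt_const.mul h1).mul h2
  have hc1 : ContinuousAt (fun ε : ℝ => ((1 - δ) * T / (16 * lam) * (1 + ε) + ε) * Ac Q (T * K) ε) 0 :=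
    ContinuousAt.mul (by fun_prop) hcA.continuousAt
  have hc2 : ContinuousAt (fun ε : ℝ => (T : ℝ) * (K * (ρ * βc Q (T * K) ε) -
      lam * ((K : ℝ) ^ 2 * γc Q (T * K) ρ ε))) 0 :=
    continuousAt_const.mul
      ((continuousAt_const.mul (continuousAt_const.mul hcβ.continuousAt)).sub
        (continuousAt_const.mul (continuousAt_const.mul hcγ)))
  have hev : ∀ᶠ ε : ℝ in 𝓝 0, ((1 - δ) * T / (16 * lam) * (1 + ε) + ε) * Ac Q (T * K) ε <
      (T : ℝ) * (K * (ρ * βc Q (T * K) ε) - lam * ((K : ℝ) ^ 2 * γc Q (T * K) ρ ε)) :=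
    hc1.tendsto.eventually_lt hc2.tendsto hb
  have hev1 : ∀ᶠ ε : ℝ in 𝓝 0, ε < 1 / 3 := gt_mem_nhds (by norm_num)
  have hev2 : ∀ᶠ ε : ℝ in 𝓝 0, ε < Q.I1 := gt_mem_nhds hI1
  have hev3 : ∀ᶠ ε : ℝ in 𝓝 0, ε < Q.I2 := gt_mem_nhds hI2
  have hev4 : ∀ᶠ ε : ℝ in 𝓝 0, 0 < Br Q (T * K) ε := by
    have := hcB.tendsto (0 : ℝ)
    exact this.eventually (lt_mem_nhds hB)
  have hall := ((hev.and (hev1.and (hev2.and (hev3.and hev4)))).filter_mono
    (nhdsWithin_le_nhds (s := Set.Ioi (0 : ℝ)))).and (self_mem_nhdsWithin (s := Set.Ioi (0 : ℝ)))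
  obtain ⟨ε, ⟨h1, h2, h3, h4, h5⟩, h6⟩ := hall.exists
  exact ⟨K, Q, ρ, ε, hK, hρ, hρ1, h6, h2, h3, h4, h5, h1⟩

theorem core_opt_of (hT1 : S1Upper) (hT2 : S2Approx) (hT3 : S2Model) (hBV : BVAP) (hPNT : PNTLog)
    (hPB : ProdBound) (hOB : OmegaBound) (hOD : OneDim) (hTail : TailBound) (hAri : AriSetup)
    (T : ℕ) (lam δ : ℝ) (hTp : 1 ≤ T) (hlam : 1 ≤ lam) (hδ : 0 < δ) (hδ1 : δ ≤ 1) :
    ∃ K : ℕ, 2 ≤ K ∧ ∀ (a b : Fin (T * K) → ℕ) (cl : Fin (T * K) → Fin T),
      (∀ g, (univ.filter (fun i => cl i = g)).card = K) → (∀ i, 1 ≤ a i) → (∀ i, 1 ≤ b i) →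
      (∀ i j, i ≠ j → a i * b j ≠ a j * b i) →
      (∀ p : ℕ, p.Prime → ∃ n : ℕ, ¬ p ∣ n ∧ ∀ i, ¬ p ∣ a i * n + b i) →
      ∀ N0 : ℕ, ∃ n, N0 < n ∧ (1 - δ) * (T : ℝ) / (16 * lam) ≤
        ∑ g : Fin T, fn lam (univ.filter (fun i => cl i = g ∧ (a i * n + b i).Prime)).card := by
  classical
  obtain ⟨K, Q, ρ, ε, hK, hρ, hρ1, hε, hε1, hI1, hI2, hBr, hnum⟩ := num_opt T lam δ hTp hlam hδ hδ1
  refine ⟨K, hK, ?_⟩
  set k := T * K with hk
  intro a b cl hcl ha hb hnp hadm N0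
  by_contra hcon
  set M : ℝ := (1 - δ) * (T : ℝ) / (16 * lam) with hMdef
  set Φ : ℕ → ℝ := fun n =>
    ∑ g : Fin T, fn lam (univ.filter (fun i => cl i = g ∧ (a i * n + b i).Prime)).card with hΦ
  have hM : ∀ n, N0 < n → Φ n ≤ M := by
    intro n hn
    by_contra h
    exact hcon ⟨n, hn, (not_le.1 h).le⟩
  have hlam0 : 0 ≤ lam := by linarith
  have hTR : (1 : ℝ) ≤ T := by exact_mod_cast hTp
  have hδ1' : 0 ≤ 1 - δ := by linarith
  have hM0 : 0 ≤ M := by rw [hMdef]; positivity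
  have hI2p : 0 < Q.I2 := hε.trans hI2
  have hI1p : 0 < Q.I1 := hε.trans hI1
  have h1ε : 0 < 1 - ε := by linarith
  have hI1ε : 0 < Q.I1 - ε := by linarith
  have h14 : 0 < 1 / 4 - 2 * ρ := by linarith
  have hKp : (0 : ℝ) < K := by exact_mod_cast (by omega : 0 < K)
  have hAc : 0 < Ac Q k ε := by unfold Ac; positivity
  have hβc : 0 < βc Q k ε := by unfold βc; positivity
  have hγc : 0 < γc Q k ρ ε := by unfold γc; positivity
  obtain ⟨D2, hctx⟩ := exists_ctx hAri a b ha hb hnp hadm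
  obtain ⟨D3, hκ⟩ := κ1_of hTail k ε hε
  obtain ⟨D4, hov⟩ := ovl_of hTail k ε hε
  obtain ⟨D5, hκ3⟩ := κ3_of hTail k ε hε
  obtain ⟨D6, hsum⟩ := sums_all Q hOD (k + 1) ε hε ρ hρ hρ1
  set D := D2 + D3 + D4 + D5 + D6 with hD
  obtain ⟨v, hc⟩ := hctx D (by omega)
  have hκ := hκ D (by omega)
  have hov := hov D (by omega)
  have hκ3 := hκ3 D (by omega)
  have hsum := hsum D (by omega)
  have hsingle := single_bound Q hT2 hT3 hBV hPNT hPB hOB hc ρ hρ hρ1 ε hε hε1 hI1 hI2 hBr hκ hov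
    (hsum.mono fun x hx => hx.1)
  have hpair := pair_bound Q hT2 hBV hPNT hPB hOB hc ρ hρ hρ1 ε hε hε1 hI1p hI2p hκ3
    (hsum.mono fun x hx => hx.2)
  have hptw := ptw Q hPB hOB hc ρ hρ hρ1 (1 / 4) (by norm_num)
  set A0 : ℝ := (1 / 3 + ε) * (Q.I2 + ε) ^ k with hA0
  have hA0p : 0 < A0 := by positivity
  obtain ⟨x, hsingle, hpair, hptw, hsum, hE1, hQa, hQb, hpl, hx⟩ := (hsingle.and (hpair.and
    (hptw.and (hsum.and ((E1_le hPB ρ hρ hρ1 k D).and
    ((Q1_large ρ hρ k D hc.hW hc.BDpos (1 / (ε * A0))).and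
    ((Q1_large ρ hρ k D hc.hW hc.BDpos (1 / (ε * Ac Q k ε))).and
    ((ev_polylog ((k : ℝ) * N0) 1 (1 / 4) 1 (by norm_num)).and
      (eventually_gt_atTop (1 : ℝ)))))))))).exists
  have hx0 : 0 < x := by linarith
  have hlx : 0 < Real.log x := Real.log_pos hx
  have hL : 0 < Lr ρ x := by unfold Lr; positivity
  set L := Lr ρ x with hLd
  set P := Pr D x with hPd
  have hP : ∀ p ∈ P, p.Prime ∧ D < p := Pr_prime D x
  set Z := Q1 k D x L with hZ
  have hZA0 : x ≤ Z * (ε * A0) := by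
    have h4 : 0 < ε * A0 := by positivity
    have := mul_le_mul_of_nonneg_right hQa h4.le
    calc x = 1 / (ε * A0) * x * (ε * A0) := by field_simp
      _ ≤ _ := this
  have hZA : x ≤ Z * (ε * Ac Q k ε) := by
    have h4 : 0 < ε * Ac Q k ε := by positivity
    have := mul_le_mul_of_nonneg_right hQb h4.le
    calc x = 1 / (ε * Ac Q k ε) * x * (ε * Ac Q k ε) := by field_simp
      _ ≤ _ := this
  have hZ0 : 0 < Z := by
    have h4 : 0 < ε * A0 := by positivity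
    by_contra h
    have h5 : Z * (ε * A0) ≤ 0 := mul_nonpos_of_nonpos_of_nonneg (not_lt.1 h) h4.le
    linarith
  set N := (Icc 1 ⌊x⌋₊).filter (fun n => n ≡ v [MOD (WW D)]) with hN
  set u : ℕ → ℝ := fun n => Real.log (x / n) * (wP Q a b P L n) ^ 2 with hu
  have hNm : ∀ n ∈ Icc 1 ⌊x⌋₊, 1 ≤ n ∧ (n : ℝ) ≤ x := by
    intro n hn
    rw [Finset.mem_Icc] at hn
    exact ⟨hn.1, (Nat.cast_le.2 hn.2).trans (Nat.floor_le hx0.le)⟩
  have hu0 : ∀ n ∈ N, 0 ≤ u n := by
    intro n hn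
    obtain ⟨h1, h2⟩ := hNm n (Finset.mem_filter.1 hn).1
    have hn0 : (0 : ℝ) < n := by exact_mod_cast h1
    apply mul_nonneg _ (sq_nonneg _)
    apply Real.log_nonneg
    rw [le_div_iff₀ hn0]
    linarith
  -- total mass
  have hS1 : ∑ n ∈ N, u n ≤ Z * Ac Q k ε := by
    have h1 := S1_P Q hT1 hc ε hε hI2p x hx L hL P hP hsum.1
    calc ∑ n ∈ N, u n ≤ Z * A0 + (Real.log x + 1) * (Real.exp (L / 48 + L) *
          ∏ t : IP P, (1 + 3 * ((k + 1 : ℕ) : ℝ) / (prP P t : ℝ))) ^ 2 := h1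
      _ ≤ Z * A0 + Z * (ε * A0) := by
          have h2 : x ^ (1 / 2 : ℝ) ≤ x := by
            calc x ^ (1 / 2 : ℝ) ≤ x ^ (1 : ℝ) := Real.rpow_le_rpow_of_exponent_le hx.le (by norm_num)
              _ = x := Real.rpow_one x
          linarith
      _ = Z * Ac Q k ε := by unfold Ac; rw [hA0]; ring
  -- classes
  have hclass : ∀ g : Fin T, K * (Z * (ρ * βc Q k ε)) - lam * ((K : ℝ) ^ 2 * (Z * γc Q k ρ ε)) ≤
      ∑ n ∈ N, u n * fn lam (univ.filter (fun i => cl i = g ∧ (a i * n + b i).Prime)).card := by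
    intro g
    have h1 := class_sum N u (univ.filter (fun i => cl i = g))
      (fun i n => (a i * n + b i).Prime) (Z * (ρ * βc Q k ε)) (Z * γc Q k ρ ε) lam (by positivity)
      hlam0 (by
        intro i _
        refine (hsingle i).trans (le_of_eq ?_)
        rw [hN, ← Finset.sum_filter, Finset.filter_filter]) (by
        intro i _ j _ hij
        refine le_trans (le_of_eq ?_) (hpair i j hij)
        rw [hN, ← Finset.sum_filter, Finset.filter_filter])
    rw [hcl g] at h1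
    refine h1.trans (le_of_eq ?_)
    refine Finset.sum_congr rfl fun n _ => ?_
    rw [Finset.filter_filter]
  have hΦsum : T * (K * (Z * (ρ * βc Q k ε)) - lam * ((K : ℝ) ^ 2 * (Z * γc Q k ρ ε))) ≤
      ∑ n ∈ N, u n * Φ n := by
    have h1 := Finset.card_nsmul_le_sum (univ : Finset (Fin T)) (fun g => ∑ n ∈ N, u n *
      fn lam (univ.filter (fun i => cl i = g ∧ (a i * n + b i).Prime)).card) _ (fun g _ => hclass g)
    rw [Finset.card_univ, Fintype.card_fin, nsmul_eq_mul] at h1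
    refine h1.trans (le_of_eq ?_)
    rw [Finset.sum_comm]
    refine Finset.sum_congr rfl fun n _ => ?_
    rw [hΦ, Finset.mul_sum]
  -- trivial bound of the functional
  have hΦk : ∀ n, Φ n ≤ k := by
    intro n
    have h1 : Φ n ≤ ∑ g : Fin T,
        ((univ.filter (fun i => cl i = g ∧ (a i * n + b i).Prime)).card : ℝ) := by
      rw [hΦ]
      exact Finset.sum_le_sum fun g _ => fn_le hlam0 _
    refine h1.trans ?_
    have h2 : ∑ g : Fin T, (univ.filter (fun i => cl i = g ∧ (a i * n + b i).Prime)).card ≤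
        ∑ g : Fin T, K := by
      apply Finset.sum_le_sum
      intro g _
      rw [← hcl g]
      apply card_le_card
      intro i hi
      rw [mem_filter] at hi ⊢
      exact ⟨hi.1, hi.2.1⟩
    rw [Finset.sum_const, Finset.card_univ, Fintype.card_fin, smul_eq_mul] at h2
    exact_mod_cast h2
  -- small `n`
  have hsmall : k * ∑ n ∈ N.filter (fun n => n ≤ N0), u n ≤ Z * (ε * Ac Q k ε) := by
    refine le_trans ?_ hZA
    have h1 : ∑ n ∈ N.filter (fun n => n ≤ N0), u n ≤ N0 * (Real.log x * x ^ (1 / 4 : ℝ)) := by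
      have h2 : ∑ n ∈ N.filter (fun n => n ≤ N0), u n ≤
          ∑ _n ∈ N.filter (fun n => n ≤ N0), Real.log x * x ^ (1 / 4 : ℝ) := by
        apply Finset.sum_le_sum
        intro n hn
        obtain ⟨h1, h2⟩ := hNm n (Finset.mem_filter.1 (Finset.mem_filter.1 hn).1).1
        have hn1 : (1 : ℝ) ≤ n := by exact_mod_cast h1
        simp only [hu]
        apply mul_le_mul _ (hptw n h1 h2).1 (sq_nonneg _) hlx.le
        apply Real.log_le_log (by positivity)
        exact div_le_self hx0.le hn1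
      refine h2.trans ?_
      rw [Finset.sum_const, nsmul_eq_mul]
      apply mul_le_mul_of_nonneg_right _ (by positivity)
      have h3 : N.filter (fun n => n ≤ N0) ⊆ Icc 1 N0 := by
        intro n hn
        rw [Finset.mem_filter] at hn
        rw [Finset.mem_Icc]
        exact ⟨(hNm n (Finset.mem_filter.1 hn.1).1).1, hn.2⟩
      have h4 := Finset.card_le_card h3
      rw [Nat.card_Icc, Nat.add_sub_cancel] at h4
      exact_mod_cast h4
    calc (k : ℝ) * ∑ n ∈ N.filter (fun n => n ≤ N0), u n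
        ≤ k * (N0 * (Real.log x * x ^ (1 / 4 : ℝ))) := by gcongr
      _ = k * N0 * (Real.log x) ^ 1 * x ^ (1 / 4 : ℝ) := by ring
      _ ≤ x ^ (1 : ℝ) := hpl
      _ = x := Real.rpow_one x
  -- upper bound
  have hup : ∑ n ∈ N, u n * Φ n ≤ M * ∑ n ∈ N, u n + k * ∑ n ∈ N.filter (fun n => n ≤ N0), u n := by
    have e5 : ∑ n ∈ N.filter (fun n => n ≤ N0), u n = ∑ n ∈ N, if n ≤ N0 then u n else 0 :=
      Finset.sum_filter _ _
    rw [e5, Finset.mul_sum, Finset.mul_sum, ← Finset.sum_add_distrib]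
    apply Finset.sum_le_sum
    intro n hn
    have hun := hu0 n hn
    by_cases h : n ≤ N0
    · rw [if_pos h]
      have h3 := mul_le_mul_of_nonneg_left (hΦk n) hun
      have h4 : 0 ≤ M * u n := by positivity
      linarith
    · rw [if_neg h, mul_zero, add_zero]
      have h3 := mul_le_mul_of_nonneg_left (hM n (not_le.1 h)) hun
      linarith
  have hfin : Z * (T * (K * (ρ * βc Q k ε) - lam * ((K : ℝ) ^ 2 * γc Q k ρ ε))) ≤
      Z * ((M * (1 + ε) + ε) * Ac Q k ε) := by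
    have h1 : M * ∑ n ∈ N, u n ≤ M * (Z * Ac Q k ε) := mul_le_mul_of_nonneg_left hS1 hM0
    have h2 : (0 : ℝ) ≤ M * ε * (Z * Ac Q k ε) := by positivity
    calc Z * (T * (K * (ρ * βc Q k ε) - lam * ((K : ℝ) ^ 2 * γc Q k ρ ε)))
        = T * (K * (Z * (ρ * βc Q k ε)) - lam * ((K : ℝ) ^ 2 * (Z * γc Q k ρ ε))) := by ring
      _ ≤ M * ∑ n ∈ N, u n + k * ∑ n ∈ N.filter (fun n => n ≤ N0), u n := hΦsum.trans hup
      _ ≤ M * (Z * Ac Q k ε) + Z * (ε * Ac Q k ε) := by linarith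
      _ ≤ M * (Z * Ac Q k ε) + Z * (ε * Ac Q k ε) + M * ε * (Z * Ac Q k ε) := by linarith
      _ = _ := by ring
  have hfin3 := le_of_mul_le_mul_left hfin hZ0
  linarith

theorem core_opt (T : ℕ) (lam δ : ℝ) (hTp : 1 ≤ T) (hlam : 1 ≤ lam) (hδ : 0 < δ) (hδ1 : δ ≤ 1) :
    ∃ K : ℕ, 2 ≤ K ∧ ∀ (a b : Fin (T * K) → ℕ) (cl : Fin (T * K) → Fin T),
      (∀ g, (univ.filter (fun i => cl i = g)).card = K) → (∀ i, 1 ≤ a i) → (∀ i, 1 ≤ b i) →
      (∀ i j, i ≠ j → a i * b j ≠ a j * b i) →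
      (∀ p : ℕ, p.Prime → ∃ n : ℕ, ¬ p ∣ n ∧ ∀ i, ¬ p ∣ a i * n + b i) →
      ∀ N0 : ℕ, ∃ n, N0 < n ∧ (1 - δ) * (T : ℝ) / (16 * lam) ≤
        ∑ g : Fin T, fn lam (univ.filter (fun i => cl i = g ∧ (a i * n + b i).Prime)).card :=
  core_opt_of Pool.Agent.H361R2.s1Upper Pool.Agent.H732R2.s2Approx Pool.Agent.H361R2.s2Model bvap
    Pool.Agent.H732R2.pntLog Pool.Agent.H361R2.prodBound Pool.Agent.H361R2.omegaBound
    Pool.Agent.H399R2.oneDim Pool.Agent.H361R2.tailBound Pool.Agent.H398R2.ariSetup T lam δ hTp hlam hδ hδ1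

/-- natural forms, indexed by natural numbers; the class of `x` is `x / K` -/
theorem few_opt (T : ℕ) (lam δ : ℝ) (hTp : 1 ≤ T) (hlam : 1 ≤ lam) (hδ : 0 < δ) (hδ1 : δ ≤ 1) :
    ∃ K : ℕ, 2 ≤ K ∧ ∀ (a b : ℕ → ℕ), (∀ x < T * K, 1 ≤ a x) →
      (∀ x < T * K, ∀ y < T * K, a x = a y → b x = b y → x = y) →
      (∀ p : ℕ, p.Prime → ∃ n : ℕ, ∀ x < T * K, ¬ p ∣ a x * n + b x) →
      ∀ N0 : ℕ, ∃ n, N0 < n ∧ (1 - δ) * (T : ℝ) / (16 * lam) ≤ ∑ g ∈ range T,
        fn lam ((range (T * K)).filter (fun x => x / K = g ∧ (a x * n + b x).Prime)).card := by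
  classical
  obtain ⟨K, hK, hcore⟩ := core_opt T lam δ hTp hlam hδ hδ1
  refine ⟨K, hK, ?_⟩
  intro a b ha hinj hadm N0
  set A : Fin (T * K) → ℕ := fun i => a i with hA
  obtain ⟨N, b', hbz, hb1, hnp, hadm'⟩ := Pool.Agent.H362R2.CM.shift_forms A (fun i => (b i : ℤ))
    (fun i => ha i i.2)
    (by
      intro i j hij
      simp only [Prod.mk.injEq] at hij
      exact Fin.ext (hinj i i.2 j j.2 hij.1 (by exact_mod_cast hij.2)))
    (by
      intro p hp
      obtain ⟨n, hn⟩ := hadm p hp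
      refine ⟨n, fun i h => hn i i.2 ?_⟩
      exact_mod_cast h)
  have hb' : ∀ i, b' i = A i * N + b i := by
    intro i
    have := hbz i
    exact_mod_cast this
  have hcl : ∀ i : Fin (T * K), (i : ℕ) / K < T := fun i =>
    (Nat.div_lt_iff_lt_mul (by omega)).2 i.2
  set cl : Fin (T * K) → Fin T := fun i => ⟨(i : ℕ) / K, hcl i⟩ with hcldef
  have hcard : ∀ g, (univ.filter (fun i => cl i = g)).card = K := by
    intro g
    have h1 : (univ.filter (fun i => cl i = g)).card = (Ico ((g : ℕ) * K) (g * K + K)).card := by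
      apply card_bij (fun (i : Fin (T * K)) _ => (i : ℕ))
      · intro i hi
        rw [mem_filter] at hi
        have h2 : (i : ℕ) / K = g := congrArg Fin.val hi.2
        rw [mem_Ico]
        have h3 := Nat.div_add_mod (i : ℕ) K
        rw [h2] at h3
        have h4 := Nat.mod_lt (i : ℕ) (show 0 < K by omega)
        rw [mul_comm] at h3
        omega
      · intro i _ j _ h
        exact Fin.ext h
      · intro x hx
        rw [mem_Ico] at hx
        have h2 : (g : ℕ) * K + K ≤ T * K := by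
          have := Nat.mul_le_mul_right K (Nat.succ_le_of_lt g.2)
          rw [Nat.succ_mul] at this
          exact this
        refine ⟨⟨x, by omega⟩, ?_, rfl⟩
        rw [mem_filter]
        refine ⟨mem_univ _, ?_⟩
        rw [hcldef]
        apply Fin.ext
        simp only
        exact Nat.div_eq_of_lt_le hx.1 (by rw [Nat.succ_mul]; exact hx.2)
    rw [h1, Nat.card_Ico]
    omega
  obtain ⟨n, hn1, hn2⟩ := hcore A b' cl hcard (fun i => ha i i.2) hb1 hnp hadm' N0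
  refine ⟨n + N, by omega, hn2.trans (le_of_eq ?_)⟩
  rw [← Fin.sum_univ_eq_sum_range (fun g => fn lam ((range (T * K)).filter
    (fun x => x / K = g ∧ (a x * (n + N) + b x).Prime)).card) T]
  apply sum_congr rfl
  intro g _
  congr 1
  apply card_bij (fun (i : Fin (T * K)) _ => (i : ℕ))
  · intro i hi
    rw [mem_filter] at hi
    rw [mem_filter, mem_range]
    refine ⟨i.2, congrArg Fin.val hi.2.1, ?_⟩
    have h3 : a i * (n + N) + b i = A i * n + b' i := by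
      rw [hb' i, hA]; ring
    rw [h3]
    exact hi.2.2
  · intro i _ j _ h
    exact Fin.ext h
  · intro x hx
    rw [mem_filter, mem_range] at hx
    obtain ⟨h1, h2, h3⟩ := hx
    refine ⟨⟨x, h1⟩, ?_, rfl⟩
    rw [mem_filter]
    refine ⟨mem_univ _, Fin.ext h2, ?_⟩
    have h4 : A ⟨x, h1⟩ * n + b' ⟨x, h1⟩ = a x * (n + N) + b x := by
      rw [hb', hA]; ring
    rw [h4]
    exact h3

/-- exact patterns among prescribed shifts `q h x`, `x < T K`, in one class modulo `q` -/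
theorem exact_opt (T : ℕ) (lam δ : ℝ) (hTp : 1 ≤ T) (hlam : 1 ≤ lam) (hδ : 0 < δ) (hδ1 : δ ≤ 1) :
    ∃ K : ℕ, 2 ≤ K ∧ ∀ (q a : ℕ), 1 ≤ q → Nat.Coprime a q → ∀ h : ℕ → ℕ,
      (∀ x < T * K, ∀ y < T * K, h x = h y → x = y) →
      (∀ p : ℕ, p.Prime → ¬ p ∣ q → ∃ r : ℕ, ∀ x < T * K, ¬ p ∣ r + h x) →
      ∃ J : Finset ℕ, (∀ x ∈ J, x < T * K) ∧ (1 - δ) * (T : ℝ) / (16 * lam) ≤
        ∑ g ∈ range T, fn lam (J.filter (fun x => x / K = g)).card ∧
        {n : ℕ | n ≡ a [MOD q] ∧ (∀ x ∈ J, (n + q * h x).Prime) ∧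
          ∀ y : ℕ, (∃ x < T * K, y ≤ q * h x) → (n + y).Prime → ∃ x ∈ J, y = q * h x}.Infinite := by
  classical
  obtain ⟨K, hK, hmain⟩ := few_opt T lam δ hTp hlam hδ hδ1
  refine ⟨K, hK, ?_⟩
  intro q a hq haq h hinj hadm
  set M := T * K with hM
  set D := (range M).sup h with hD
  have hxD : ∀ x < M, h x ≤ D := fun x hx => le_sup (f := h) (mem_range.2 hx)
  -- forms for all the positions
  set ι := Fin (q * D + 1) with hι
  set S : Finset ι := univ.filter (fun j => ∃ x < M, q * h x = (j : ℕ)) with hS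
  obtain ⟨W, ν, hW, hE, hSp⟩ := Pool.Agent.TH779.Shat.congruences (fun _ : ι => q)
    (fun j : ι => a + (j : ℕ)) (fun _ => hq)
    (by
      intro i j hij h1
      have h2 := Nat.eq_of_mul_eq_mul_left hq h1
      exact hij (Fin.ext (by omega))) S Sᶜ disjoint_compl_left
  have hpos : ∀ x, x < M → q * h x < q * D + 1 := fun x hx => by
    have := Nat.mul_le_mul_left q (hxD x hx)
    omega
  have hfew := hmain (fun _ => q * W) (fun x => q * ν + (a + q * h x))
    (fun _ _ => Nat.mul_pos hq hW)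
    (by
      intro x hx y hy _ h2
      apply hinj x hx y hy
      have h3 : q * h x = q * h y := by
        have h2' : q * ν + (a + q * h x) = q * ν + (a + q * h y) := h2
        omega
      exact Nat.eq_of_mul_eq_mul_left hq h3)
    (by
      intro p hp
      by_cases hpW : p ∣ q * W
      · refine ⟨0, fun x hx hd => ?_⟩
        rw [mul_zero, zero_add] at hd
        rcases (Nat.Prime.dvd_mul hp).1 hpW with h1 | h1
        · have h2 : p ∣ a := by
            have h3 : p ∣ q * ν := h1.mul_right _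
            have h4 : p ∣ a + q * h x := (Nat.dvd_add_right h3).1 hd
            exact (Nat.dvd_add_left (h1.mul_right _)).1 h4
          have h3 : p ∣ 1 := by
            rw [← haq]
            exact Nat.dvd_gcd h2 h1
          exact hp.one_lt.ne' (Nat.dvd_one.1 h3)
        · exact hSp p hp h1 ⟨q * h x, hpos x hx⟩ (by
            rw [hS, mem_filter]
            exact ⟨mem_univ _, x, hx, rfl⟩) hd
      · obtain ⟨r, hr⟩ := hadm p hp (fun h => hpW (h.mul_right _))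
        have : Fact p.Prime := ⟨hp⟩
        have hpq : ¬ p ∣ q := fun h => hpW (h.mul_right _)
        have hpW' : ¬ p ∣ W := fun h => hpW (h.mul_left _)
        have hqZ : (q : ZMod p) ≠ 0 := fun h => hpq ((ZMod.natCast_eq_zero_iff _ _).1 h)
        have hWZ : (W : ZMod p) ≠ 0 := fun h => hpW' ((ZMod.natCast_eq_zero_iff _ _).1 h)
        refine ⟨(((r : ZMod p) - a / q - ν) / W).val, fun x hx hd => ?_⟩
        rw [← ZMod.natCast_eq_zero_iff] at hd
        push_cast at hd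
        rw [ZMod.natCast_zmod_val] at hd
        apply hr x hx
        rw [← ZMod.natCast_eq_zero_iff]
        push_cast
        have h1 : (q : ZMod p) * ((r : ZMod p) + h x) = 0 := by
          rw [← hd]
          field_simp
          ring
        exact (mul_eq_zero.1 h1).resolve_left hqZ)
  -- the pattern at `t`
  set Jt : ℕ → Finset ℕ := fun t =>
    (range M).filter (fun x => (q * W * t + (q * ν + (a + q * h x))).Prime) with hJt
  set Sset : Set ℕ := {t : ℕ | 2 ≤ t ∧ (1 - δ) * (T : ℝ) / (16 * lam) ≤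
    ∑ g ∈ range T, fn lam ((Jt t).filter (fun x => x / K = g)).card} with hSset
  have hinf : Sset.Infinite := by
    rw [Set.infinite_iff_exists_gt]
    intro N0
    obtain ⟨t, ht1, ht2⟩ := hfew (N0 + 2)
    refine ⟨t, ⟨by omega, ht2.trans (le_of_eq ?_)⟩, by omega⟩
    apply sum_congr rfl
    intro g _
    congr 2
    ext x
    simp only [hJt, mem_filter, mem_range]
    tauto
  have hcover : Sset ⊆ ⋃ J : Set.Elem (((range M).powerset : Finset (Finset ℕ)) : Set (Finset ℕ)),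
      {t ∈ Sset | Jt t = J.1} := by
    intro t ht
    rw [Set.mem_iUnion]
    refine ⟨⟨Jt t, ?_⟩, ht, rfl⟩
    rw [mem_coe, mem_powerset]
    exact filter_subset _ _
  have : ∃ J : Finset ℕ, {t ∈ Sset | Jt t = J}.Infinite := by
    by_contra hcon
    push Not at hcon
    apply hinf
    apply Set.Finite.subset _ hcover
    exact Set.finite_iUnion (fun J => hcon J.1)
  obtain ⟨J, hJ⟩ := this
  obtain ⟨t₀, ht₀⟩ := hJ.nonempty
  have hJM : ∀ x ∈ J, x < M := by
    intro x hx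
    rw [← ht₀.2, hJt] at hx
    exact mem_range.1 (mem_filter.1 hx).1
  refine ⟨J, hJM, ?_, ?_⟩
  · have := ht₀.1.2
    rw [ht₀.2] at this
    exact this
  · have hinj' : Set.InjOn (fun t : ℕ => q * W * t + (q * ν + a)) {t ∈ Sset | Jt t = J} := by
      intro t _ t' _ e
      have e' : q * W * t = q * W * t' := by
        simp only at e
        omega
      exact Nat.eq_of_mul_eq_mul_left (Nat.mul_pos hq hW) e'
    apply (hJ.image hinj').mono
    rintro _ ⟨t, ⟨ht1, ht2⟩, rfl⟩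
    refine ⟨?_, ?_, ?_⟩
    · have h1 : q * W * t + (q * ν + a) = a + q * (W * t + ν) := by ring
      simp only
      rw [h1]
      exact (Nat.modEq_iff_dvd' (by omega)).2 ⟨W * t + ν, by omega⟩ |>.symm
    · intro x hx
      rw [← ht2, hJt, mem_filter] at hx
      have h1 : q * W * t + (q * ν + a) + q * h x = q * W * t + (q * ν + (a + q * h x)) := by ring
      simp only
      rw [h1]
      exact hx.2
    · rintro y ⟨x, hx, hy⟩ hp
      simp only at hp
      have hyD : y < q * D + 1 := hy.trans_lt (hpos x hx)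
      by_cases hyS : (⟨y, hyD⟩ : ι) ∈ S
      · rw [hS, mem_filter] at hyS
        obtain ⟨-, x', hx', he⟩ := hyS
        simp only at he
        refine ⟨x', ?_, he.symm⟩
        rw [← ht2, hJt, mem_filter, mem_range]
        refine ⟨hx', ?_⟩
        rw [he]
        have h1 : q * W * t + (q * ν + a) + y = q * W * t + (q * ν + (a + y)) := by ring
        rw [← h1]
        exact hp
      · exfalso
        obtain ⟨p, hp1, hp2, hp3⟩ := hE ⟨y, hyD⟩ (mem_compl.2 hyS)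
        have h1 : p ∣ q * W * t + (q * ν + a) + y := by
          have h2 : q * W * t + (q * ν + a) + y = W * (q * t) + (q * ν + (a + y)) := by ring
          rw [h2]
          exact dvd_add (hp2.mul_right _) hp3
        have h2 : p = q * W * t + (q * ν + a) + y := (Nat.prime_dvd_prime_iff_eq hp1 hp).1 h1
        have h3 : p ≤ W := Nat.le_of_dvd hW hp2
        have h4 : 2 ≤ t := ht1.1
        have h5 : W * 2 ≤ q * W * t := by
          calc W * 2 ≤ W * t := Nat.mul_le_mul_left _ h4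
            _ = 1 * W * t := by ring
            _ ≤ q * W * t := Nat.mul_le_mul_right _ (Nat.mul_le_mul_right _ hq)
        omega

end Pool.Agent.E8helper66.CP
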