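import Mathlib
import Pool.Agent.TH779.Ord.Block

/-! A window of `k + 1` consecutive points with different classes. -/

set_option autoImplicit false

namespace Pool.Agent.E8helper66.CP

open Finset
open Pool.Agent.TH779.Ord (fn el el_mem el_lt el_surj)

/-- ordered pairs of different elements of the same class -/
theorem card_same (P : Finset ℕ) (c : ℕ → ℕ) (T : ℕ) (hc : ∀ x ∈ P, c x < T) :
    2 * ((P ×ˢ P).filter (fun z => z.1 < z.2 ∧ c z.1 = c z.2)).card ≤
      ∑ g ∈ range T, (P.filter (fun x => c x = g)).card * ((P.filter (fun x => c x = g)).card - 1) := by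
  classical
  have h1 : ∀ g, (P.filter (fun x => c x = g)).card * ((P.filter (fun x => c x = g)).card - 1) =
      (P.filter (fun x => c x = g)).offDiag.card := by
    intro g
    rw [offDiag_card, Nat.mul_sub, mul_one]
  rw [sum_congr rfl fun g _ => h1 g, ← card_biUnion]
  · have h2 : ((P ×ˢ P).filter (fun z => z.1 < z.2 ∧ c z.1 = c z.2)) ∪
        ((P ×ˢ P).filter (fun z => z.1 < z.2 ∧ c z.1 = c z.2)).image Prod.swap ⊆
        (range T).biUnion (fun g => (P.filter (fun x => c x = g)).offDiag) := by
      intro z hz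
      rw [mem_union, mem_image] at hz
      rw [mem_biUnion]
      rcases hz with hz | ⟨w, hw, rfl⟩
      · rw [mem_filter, mem_product] at hz
        refine ⟨c z.1, mem_range.2 (hc _ hz.1.1), ?_⟩
        rw [mem_offDiag, mem_filter, mem_filter]
        exact ⟨⟨hz.1.1, rfl⟩, ⟨hz.1.2, hz.2.2.symm⟩, hz.2.1.ne⟩
      · rw [mem_filter, mem_product] at hw
        refine ⟨c w.1, mem_range.2 (hc _ hw.1.1), ?_⟩
        rw [mem_offDiag, mem_filter, mem_filter]
        exact ⟨⟨hw.1.2, hw.2.2.symm⟩, ⟨hw.1.1, rfl⟩, hw.2.1.ne'⟩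
    refine le_trans (le_of_eq ?_) (card_le_card h2)
    rw [card_union_of_disjoint, card_image_of_injective _ Prod.swap_injective, two_mul]
    rw [disjoint_left]
    intro z hz hz'
    rw [mem_image] at hz'
    obtain ⟨w, hw, rfl⟩ := hz'
    rw [mem_filter] at hz hw
    have := hz.2.1
    have := hw.2.1
    simp only [Prod.fst_swap, Prod.snd_swap] at *
    omega
  · intro g _ g' _ hgg
    rw [Function.onFun, disjoint_left]
    intro z hz hz'
    rw [mem_offDiag, mem_filter] at hz hz'
    exact hgg (hz.1.2.symm.trans hz'.1.2)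

theorem window (P : Finset ℕ) (c : ℕ → ℕ) (T k : ℕ) (hc : ∀ x ∈ P, c x < T)
    (h : (k : ℝ) < ∑ g ∈ range T, fn ((k : ℝ) / 2) (P.filter (fun x => c x = g)).card) :
    ∃ I ⊆ P, I.card = k + 1 ∧ Set.InjOn c (I : Set ℕ) ∧
      ∀ x ∈ P, ∀ i ∈ I, ∀ j ∈ I, i ≤ x → x ≤ j → x ∈ I := by
  classical
  by_contra hcon
  push Not at hcon
  set N := P.card with hN
  -- windows
  have hmono : ∀ i j, i < N → j < N → el P i = el P j → i = j := by
    intro i j hi hj hij
    rcases lt_trichotomy i j with h1 | h1 | h1
    · exact absurd hij (el_lt P h1 hj).ne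
    · exact h1
    · exact absurd hij (el_lt P h1 hi).ne'
  have hle : ∀ i j, i < N → j < N → el P i ≤ el P j → i ≤ j := by
    intro i j hi hj hij
    by_contra h1
    exact absurd (el_lt P (not_le.1 h1) hi) (by omega)
  have hbad : ∀ t, t + k < N → ∃ i j, t ≤ i ∧ i < j ∧ j ≤ t + k ∧ c (el P i) = c (el P j) := by
    intro t ht
    by_contra hno
    push Not at hno
    have hinj : Set.InjOn (el P) (Icc t (t + k) : Finset ℕ) := by
      intro i hi j hj hij
      rw [coe_Icc, Set.mem_Icc] at hi hj
      exact hmono i j (by omega) (by omega) hij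
    obtain ⟨x, hxP, i', hi', j', hj', h1, h2, h3⟩ := hcon ((Icc t (t + k)).image (el P)) (by
      intro x hx
      obtain ⟨i, hi, rfl⟩ := mem_image.1 hx
      rw [mem_Icc] at hi
      exact el_mem P (by omega)) (by
      rw [card_image_of_injOn hinj, Nat.card_Icc]
      omega) (by
      intro x hx y hy hxy
      rw [coe_image] at hx hy
      obtain ⟨i, hi, rfl⟩ := hx
      obtain ⟨j, hj, rfl⟩ := hy
      rw [coe_Icc, Set.mem_Icc] at hi hj
      rcases lt_trichotomy i j with h1 | h1 | h1
      · exact absurd hxy (hno i j hi.1 h1 hj.2)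
      · rw [h1]
      · exact absurd hxy.symm (hno j i hj.1 h1 hi.2))
    obtain ⟨e, he, rfl⟩ := el_surj P hxP
    obtain ⟨i, hi, rfl⟩ := mem_image.1 hi'
    obtain ⟨j, hj, rfl⟩ := mem_image.1 hj'
    rw [mem_Icc] at hi hj
    have h4 := hle i e (by omega) he h1
    have h5 := hle e j he (by omega) h2
    exact h3 (mem_image_of_mem _ (mem_Icc.2 ⟨by omega, by omega⟩))
  choose! fi fj h1 h2 h3 h4 using hbad
  set S := (P ×ˢ P).filter (fun z => z.1 < z.2 ∧ c z.1 = c z.2) with hS
  have hcard : N - k ≤ S.card * k := by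
    have h5 : (range (N - k)).card ≤ (S ×ˢ range k).card := by
      apply card_le_card_of_injOn (fun t => ((el P (fi t), el P (fj t)), fi t - t))
      · intro t ht
        rw [mem_coe, mem_range] at ht
        have ht' : t + k < N := by omega
        have e1 := h1 t ht'
        have e2 := h2 t ht'
        have e3 := h3 t ht'
        rw [mem_coe, mem_product, mem_range, hS, mem_filter, mem_product]
        exact ⟨⟨⟨el_mem P (by omega), el_mem P (by omega)⟩, el_lt P e2 (by omega), h4 t ht'⟩, by
          simp only; omega⟩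
      · intro t ht t' ht' htt
        rw [mem_coe, mem_range] at ht ht'
        have ht1 : t + k < N := by omega
        have ht2 : t' + k < N := by omega
        simp only [Prod.mk.injEq] at htt
        have e1 := h1 t ht1
        have e2 := h2 t ht1
        have e3 := h3 t ht1
        have e1' := h1 t' ht2
        have e2' := h2 t' ht2
        have e3' := h3 t' ht2
        have e4 := hmono _ _ (by omega) (by omega) htt.1.1
        omega
    rwa [card_range, card_product, card_range] at h5
  have hsame := card_same P c T hc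
  have hsum : N = ∑ g ∈ range T, (P.filter (fun x => c x = g)).card := by
    rw [hN]
    exact card_eq_sum_card_fiberwise (fun x hx => mem_coe.2 (mem_range.2 (hc x hx)))
  have hfn : ∑ g ∈ range T, fn ((k : ℝ) / 2) (P.filter (fun x => c x = g)).card =
      (N : ℝ) - k / 2 * ((∑ g ∈ range T, (P.filter (fun x => c x = g)).card *
        ((P.filter (fun x => c x = g)).card - 1) : ℕ) : ℝ) := by
    rw [hsum]
    push_cast
    rw [mul_sum, ← sum_sub_distrib]
    refine sum_congr rfl fun g _ => ?_
    rw [fn]
    congr 2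
    rcases Nat.eq_zero_or_pos (P.filter (fun x => c x = g)).card with h0 | h0
    · rw [h0]; simp
    · rw [Nat.cast_sub h0, Nat.cast_one]
  rw [hfn] at h
  have e1 : (N : ℝ) ≤ k + S.card * k := by
    have : N ≤ k + S.card * k := by omega
    exact_mod_cast this
  have e2 : (k : ℝ) / 2 * (2 * S.card) ≤ k / 2 * ((∑ g ∈ range T, (P.filter (fun x => c x = g)).card *
        ((P.filter (fun x => c x = g)).card - 1) : ℕ) : ℝ) := by
    apply mul_le_mul_of_nonneg_left _ (by positivity)
    exact_mod_cast hsame
  linarith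

end Pool.Agent.E8helper66.CP
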