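import Mathlib
import Pool.Agent.E8helper66.CP.Opt
import Pool.Agent.E8helper66.CP.Win
import Pool.Agent.H461R2.PD.Dens

/-! The proportion of the patterns of consecutive primes. -/

set_option autoImplicit false

namespace Pool.Agent.E8helper66.CP

open Finset
open Pool.Agent.TH779.Ord (fn)
open Pool.Agent.H461R2.PD (Clq cnt turan_blowup exists_class parts_disjoint exists_shift card_noninj)

/-- for infinitely many `n ≡ a (mod q)` the numbers `n + q h`, `h ∈ H`, are exactly the primes between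
the smallest and the largest of them -/
def Realised (q a : ℕ) (H : Finset ℕ) : Prop :=
  {n : ℕ | n ≡ a [MOD q] ∧ ∀ m : ℕ, (∃ h ∈ H, n + q * h ≤ m) → (∃ h ∈ H, m ≤ n + q * h) →
    (m.Prime ↔ ∃ h ∈ H, m = n + q * h)}.Infinite

/-- an interval of the set of all prime positions is realised -/
theorem realised_of {q a : ℕ} (hq : 1 ≤ q) {M : ℕ} {h : ℕ → ℕ} {J : Finset ℕ} (hJ : ∀ x ∈ J, x < M)
    (hinf : {n : ℕ | n ≡ a [MOD q] ∧ (∀ x ∈ J, (n + q * h x).Prime) ∧
          ∀ y : ℕ, (∃ x < M, y ≤ q * h x) → (n + y).Prime → ∃ x ∈ J, y = q * h x}.Infinite)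
    {I : Finset ℕ} (hI : I ⊆ J.image h)
    (hint : ∀ x ∈ J.image h, ∀ i ∈ I, ∀ j ∈ I, i ≤ x → x ≤ j → x ∈ I) : Realised q a I := by
  refine hinf.mono ?_
  rintro n ⟨h1, h2, h3⟩
  refine ⟨h1, ?_⟩
  rintro m ⟨i, hi, him⟩ ⟨j, hj, hjm⟩
  constructor
  · intro hm
    obtain ⟨x, hx, hxj⟩ := mem_image.1 (hI hj)
    have h4 := h3 (m - n) ⟨x, hJ x hx, by rw [hxj]; omega⟩ (by
      have : n + (m - n) = m := by
        have : n ≤ m := le_trans (Nat.le_add_right _ _) him
        omega
      rw [this]; exact hm)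
    obtain ⟨z, hz, hzm⟩ := h4
    have h5 : m = n + q * h z := by
      have : n ≤ m := le_trans (Nat.le_add_right _ _) him
      omega
    refine ⟨h z, hint _ (mem_image_of_mem h hz) i hi j hj ?_ ?_, h5⟩
    · have h6 : q * i ≤ q * h z := by omega
      exact Nat.le_of_mul_le_mul_left h6 (by omega)
    · have h6 : q * h z ≤ q * j := by omega
      exact Nat.le_of_mul_le_mul_left h6 (by omega)
  · rintro ⟨i', hi', rfl⟩
    obtain ⟨x, hx, rfl⟩ := mem_image.1 (hI hi')
    exact h2 x hx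

/-- `V` misses a residue class modulo every prime up to `z` which does not divide `q` -/
def MissQ (q z : ℕ) (V : Finset ℕ) : Prop :=
  ∀ p, p ≤ z → p.Prime → ¬ p ∣ q → ∃ r : ℕ, ∀ v ∈ V, ¬ v ≡ r [MOD p]

open Classical in
/-- numbering the parts -/
theorem exists_familyQ {q : ℕ} {V : Finset ℕ} {B : Finset (Finset V)} {r T K Q : ℕ} (hV : MissQ q T V)
    (hB : ∀ I ∈ B, I.card = r) (hr2 : 2 ≤ r) (hT : r ≤ T) (hK : 1 ≤ K)
    (hQ0 : 0 < Q) (hQ : ∀ p, p ≤ T * K → p.Prime → p ∣ Q)
    {A : Fin T → Finset V} (hAK : ∀ i, (A i).card = Q * K)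
    (hA : ∀ u : Fin T → V, (∀ i, u i ∈ A i) → Clq B r u) :
    ∃ H : Fin T → Fin K → V, Function.Injective (fun x : Fin T × Fin K => (H x.1 x.2 : ℕ)) ∧
      (∀ p : ℕ, p.Prime → ¬ p ∣ q → ∃ n : ℤ, ∀ g i, ¬ ((p : ℤ) ∣ n + (H g i : ℕ))) ∧
      ∀ c : Fin T → Fin K, Clq B r fun g => H g (c g) := by
  have hne : ∀ i, (A i).Nonempty := fun i => card_pos.1 (by rw [hAK i]; exact Nat.mul_pos hQ0 hK)
  choose ρ A' hA1 hA2 hA3 using fun i => exists_class (fun v : V => (v : ℕ)) hQ0 (hAK i)
  set e : ∀ g, Fin K ≃ A' g := fun g => ((A' g).equivFinOfCardEq (hA2 g)).symm with he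
  have heA : ∀ g i, (e g i : V) ∈ A g := fun g i => hA1 g (e g i).2
  refine ⟨fun g i => (e g i : V), ?_, ?_, ?_⟩
  · rintro ⟨g, i⟩ ⟨g', i'⟩ hx
    simp only at hx
    have hx' : (e g i : V) = e g' i' := Subtype.ext hx
    have hgg : g = g' := by
      by_contra hgg
      exact parts_disjoint hB hr2 hT hne hA hgg (heA g i) (by rw [hx']; exact heA g' i')
    subst hgg
    have : e g i = e g i' := Subtype.ext hx'
    rw [(e g).injective this]
  · intro p hp hpq
    rcases le_or_gt p (T * K) with hpz | hpz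
    · rcases le_or_gt p T with hpT | hpT
      · obtain ⟨r, hr⟩ := hV p hpT hp hpq
        refine ⟨-(r : ℤ), fun g i hd => hr _ (e g i : V).2 ?_⟩
        rw [← Int.natCast_modEq_iff]
        exact (Int.modEq_iff_dvd.2 (by
          have e : ((e g i : V) : ℤ) - (r : ℤ) = -(r : ℤ) + ((e g i : V) : ℕ) := by
            ring
          rw [e]; exact hd)).symm
      · have : Fact p.Prime := ⟨hp⟩
        obtain ⟨n, hn⟩ := exists_shift (T := T) (K := 1) hp (by omega) (fun g _ => ρ g)
        refine ⟨n, fun g i hd => hn g 0 ?_⟩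
        have h1 : (((e g i : V) : ℕ) : ZMod p) = (ρ g : ZMod p) := by
          rw [ZMod.natCast_eq_natCast_iff]
          exact (hA3 g _ (e g i).2).of_dvd (hQ p hpz hp)
        have h2 := (ZMod.intCast_zmod_eq_zero_iff_dvd _ p).2 hd
        rw [← ZMod.intCast_zmod_eq_zero_iff_dvd]
        push_cast at h2 ⊢
        rw [← h1]
        exact h2
    · exact exists_shift hp hpz _
  · intro c
    exact hA _ fun g => heA g (c g)

/-- every `r`-set is the image of `r!` tuples -/
theorem cnt_ge {W : Type} [Fintype W] [DecidableEq W] (B : Finset (Finset W)) (r : ℕ)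
    (hB : ∀ I ∈ B, I.card = r) : r.factorial * B.card ≤ cnt B r r := by
  classical
  unfold cnt
  have h1 : ∀ u : Fin r → W, univ.image u ∈ B → Clq B r u := by
    intro u hu I hI
    have : I = univ := by rw [← card_eq_iff_eq_univ, hI, Fintype.card_fin]
    rw [this]; exact hu
  have h2 : ∀ I ∈ B, r.factorial ≤
      ((univ.filter fun x : Fin r → W => Clq B r x).filter (fun u => univ.image u = I)).card := by
    intro I hI
    have hc := hB I hI
    have e : Fin r ≃ I := (I.equivFinOfCardEq hc).symm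
    have h3 : r.factorial = (univ : Finset (Equiv.Perm (Fin r))).card := by
      rw [card_univ, Fintype.card_perm, Fintype.card_fin]
    rw [h3]
    apply card_le_card_of_injOn (fun σ i => (e (σ i) : W))
    · intro σ _
      have h4 : univ.image (fun i => (e (σ i) : W)) = I := by
        ext w
        rw [mem_image]
        constructor
        · rintro ⟨i, _, rfl⟩
          exact (e (σ i)).2
        · intro hw
          refine ⟨σ.symm (e.symm ⟨w, hw⟩), mem_univ _, ?_⟩
          simp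
      rw [mem_coe, mem_filter, mem_filter]
      exact ⟨⟨mem_univ _, h1 _ (by rw [h4]; exact hI)⟩, h4⟩
    · intro σ _ τ _ hστ
      ext i
      have := congrFun hστ i
      simp only at this
      rw [e.injective (Subtype.ext this)]
  calc r.factorial * B.card = ∑ _I ∈ B, r.factorial := by rw [sum_const, smul_eq_mul, mul_comm]
    _ ≤ ∑ I ∈ B, ((univ.filter fun x : Fin r → W => Clq B r x).filter
        (fun u => univ.image u = I)).card := sum_le_sum h2
    _ ≤ _ := by
        rw [← card_biUnion]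
        · apply card_le_card
          intro u hu
          obtain ⟨I, _, hu⟩ := mem_biUnion.1 hu
          exact (mem_filter.1 hu).1
        · intro I _ I' _ hII
          rw [Function.onFun, disjoint_left]
          intro u hu hu'
          exact hII ((mem_filter.1 hu).2.symm.trans (mem_filter.1 hu').2)

/-- among `8 k ^ 2 + 1` classes of `K` positions some `k + 1` positions of different classes form a
realised pattern -/
theorem rainbow (k : ℕ) (hk : 2 ≤ k) : ∃ K : ℕ, 2 ≤ K ∧ ∀ q a : ℕ, 1 ≤ q → Nat.Coprime a q →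
    ∀ H : Fin (8 * k ^ 2 + 1) → Fin K → ℕ,
    Function.Injective (fun x : Fin (8 * k ^ 2 + 1) × Fin K => H x.1 x.2) →
    (∀ p : ℕ, p.Prime → ¬ p ∣ q → ∃ n : ℤ, ∀ g i, ¬ ((p : ℤ) ∣ n + H g i)) →
    ∃ (G : Finset (Fin (8 * k ^ 2 + 1))) (c : Fin (8 * k ^ 2 + 1) → Fin K), G.card = k + 1 ∧
      Realised q a (G.image (fun g => H g (c g))) := by
  classical
  set T : ℕ := 8 * k ^ 2 + 1 with hT
  have hkR : (2 : ℝ) ≤ k := by exact_mod_cast hk
  set δ : ℝ := 1 / (16 * k ^ 2 + 2) with hδ
  have hδ0 : 0 < δ := by rw [hδ]; positivity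
  have hδ1 : δ ≤ 1 := by
    rw [hδ, div_le_one (by positivity)]
    nlinarith
  obtain ⟨K, hK, hmain⟩ := exact_opt T ((k : ℝ) / 2) δ (by omega) (by linarith) hδ0 hδ1
  refine ⟨K, hK, ?_⟩
  intro q a hq haq H hinj hadm
  have hK0 : 0 < K := by omega
  set h : ℕ → ℕ := fun x => if hx : x / K < T then H ⟨x / K, hx⟩ ⟨x % K, Nat.mod_lt _ hK0⟩ else 0
    with hh
  have hdiv : ∀ x < T * K, x / K < T := fun x hx => (Nat.div_lt_iff_lt_mul hK0).2 hx
  have hval : ∀ x (hx : x < T * K), h x = H ⟨x / K, hdiv x hx⟩ ⟨x % K, Nat.mod_lt _ hK0⟩ := by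
    intro x hx
    rw [hh]
    simp only
    rw [dif_pos (hdiv x hx)]
  have hhinj : ∀ x < T * K, ∀ y < T * K, h x = h y → x = y := by
    intro x hx y hy hxy
    rw [hval x hx, hval y hy] at hxy
    have h1 := hinj (a₁ := (⟨x / K, hdiv x hx⟩, ⟨x % K, Nat.mod_lt _ hK0⟩))
      (a₂ := (⟨y / K, hdiv y hy⟩, ⟨y % K, Nat.mod_lt _ hK0⟩)) hxy
    simp only [Prod.mk.injEq, Fin.mk.injEq] at h1
    rw [← Nat.div_add_mod x K, ← Nat.div_add_mod y K, h1.1, h1.2]
  obtain ⟨J, hJ, hfn, hinf⟩ := hmain q a hq haq h hhinj (by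
    intro p hp hpq
    obtain ⟨n, hn⟩ := hadm p hp hpq
    refine ⟨(n % p).toNat, fun x hx hd => hn ⟨x / K, hdiv x hx⟩ ⟨x % K, Nat.mod_lt _ hK0⟩ ?_⟩
    rw [← hval x hx]
    have h1 : ((p : ℕ) : ℤ) ∣ (((n % p).toNat : ℕ) : ℤ) + h x := by exact_mod_cast hd
    rw [Int.toNat_of_nonneg (Int.emod_nonneg _ (by exact_mod_cast hp.ne_zero))] at h1
    have h2 : (p : ℤ) ∣ n - n % p := Int.dvd_self_sub_emod
    have h3 := dvd_add h1 h2
    have e : n % (p : ℤ) + (h x : ℤ) + (n - n % p) = n + h x := by ring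
    rwa [e] at h3)
  have hhJ : Set.InjOn h (J : Set ℕ) := fun x hx y hy hxy =>
    hhinj x (hJ x hx) y (hJ y hy) hxy
  -- the class of a position
  set c : ℕ → ℕ := fun p => if hp : ∃ x ∈ J, h x = p then (Classical.choose hp) / K else 0 with hc
  have hcv : ∀ x ∈ J, c (h x) = x / K := by
    intro x hx
    have hp : ∃ y ∈ J, h y = h x := ⟨x, hx, rfl⟩
    have h1 := Classical.choose_spec hp
    have h2 : Classical.choose hp = x := hhJ h1.1 hx h1.2
    rw [hc]
    simp only
    rw [dif_pos hp, h2]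
  set P : Finset ℕ := J.image h with hP
  have hPc : ∀ g, (P.filter (fun x => c x = g)).card = (J.filter (fun x => x / K = g)).card := by
    intro g
    have e : P.filter (fun x => c x = g) = (J.filter (fun x => x / K = g)).image h := by
      ext p
      rw [mem_filter, hP, mem_image, mem_image]
      constructor
      · rintro ⟨⟨x, hx, rfl⟩, h2⟩
        rw [hcv x hx] at h2
        exact ⟨x, mem_filter.2 ⟨hx, h2⟩, rfl⟩
      · rintro ⟨x, hx, rfl⟩
        rw [mem_filter] at hx
        exact ⟨⟨x, hx.1, rfl⟩, by rw [hcv x hx.1]; exact hx.2⟩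
    rw [e]
    exact card_image_of_injOn (hhJ.mono (by
      intro x hx
      exact (mem_filter.1 hx).1))
  have hwin := window P c T k (by
    intro p hp
    obtain ⟨x, hx, rfl⟩ := mem_image.1 hp
    rw [hcv x hx]
    exact hdiv x (hJ x hx)) (by
    rw [sum_congr rfl fun g _ => by rw [hPc g]]
    refine lt_of_lt_of_le ?_ hfn
    have hk0 : (0 : ℝ) < k := by linarith
    have hTR : (T : ℝ) = 8 * k ^ 2 + 1 := by rw [hT]; push_cast; ring
    rw [hTR, lt_div_iff₀ (by positivity)]
    have h1 : (1 - δ) * (8 * (k : ℝ) ^ 2 + 1) = 8 * k ^ 2 + 1 - 1 / 2 := by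
      rw [hδ]
      field_simp
      ring
    rw [h1]
    nlinarith)
  obtain ⟨I, hIP, hIc, hIinj, hIint⟩ := hwin
  have hreal := realised_of hq hJ hinf hIP hIint
  -- the indices
  have hx : ∀ p ∈ I, ∃ x ∈ J, h x = p := fun p hp => mem_image.1 (hIP hp)
  choose! ξ hξ1 hξ2 using hx
  set G : Finset (Fin T) := univ.filter (fun g => ∃ p ∈ I, c p = g) with hG
  have hcξ : ∀ p ∈ I, c p = ξ p / K := by
    intro p hp
    rw [← hcv (ξ p) (hξ1 p hp), hξ2 p hp]
  have hGex : ∀ g ∈ G, ∃ p ∈ I, c p = g := fun g hg => (mem_filter.1 hg).2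
  choose! π hπ1 hπ2 using hGex
  refine ⟨G, fun g => ⟨ξ (π g) % K, Nat.mod_lt _ hK0⟩, ?_, ?_⟩
  · rw [← hIc]
    symm
    apply card_bij (fun p hp => (⟨c p, by rw [hcξ p hp]; exact hdiv _ (hJ _ (hξ1 p hp))⟩ : Fin T))
    · intro p hp
      rw [hG, mem_filter]
      exact ⟨mem_univ _, p, hp, rfl⟩
    · intro p hp p' hp' he
      exact hIinj hp hp' (Fin.mk.inj_iff.1 he)
    · intro g hg
      exact ⟨π g, hπ1 g hg, Fin.ext (hπ2 g hg)⟩
  · have key : ∀ g ∈ G, H g ⟨ξ (π g) % K, Nat.mod_lt _ hK0⟩ = π g := by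
      intro g hg
      have h1 := hval (ξ (π g)) (hJ _ (hξ1 _ (hπ1 g hg)))
      rw [hξ2 _ (hπ1 g hg)] at h1
      have h2 : (⟨ξ (π g) / K, hdiv _ (hJ _ (hξ1 _ (hπ1 g hg)))⟩ : Fin T) = g :=
        Fin.ext (by
          show ξ (π g) / K = (g : ℕ)
          rw [← hcξ _ (hπ1 g hg)]
          exact hπ2 g hg)
      rw [h2] at h1
      exact h1.symm
    have e : G.image (fun g => H g ⟨ξ (π g) % K, Nat.mod_lt _ hK0⟩) = I := by
      ext p
      rw [mem_image]
      constructor
      · rintro ⟨g, hg, rfl⟩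
        rw [key g hg]
        exact hπ1 g hg
      · intro hp
        have hlt : c p < T := by rw [hcξ p hp]; exact hdiv _ (hJ _ (hξ1 p hp))
        have hg : (⟨c p, hlt⟩ : Fin T) ∈ G := by
          rw [hG, mem_filter]
          exact ⟨mem_univ _, p, hp, rfl⟩
        refine ⟨⟨c p, hlt⟩, hg, ?_⟩
        rw [key _ hg]
        exact hIinj (hπ1 _ hg) hp (hπ2 _ hg)
    rw [e]
    exact hreal

open Classical in
/-- the proportion of the realised patterns -/
theorem proportion (k : ℕ) (hk : 2 ≤ k) (ε : ℝ) (hε : 0 < ε) : ∃ n₀ : ℕ, ∀ q a : ℕ, 1 ≤ q →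
    Nat.Coprime a q → ∀ V : Finset ℕ, MissQ q (8 * k ^ 2 + 1) V → n₀ ≤ V.card →
    (1 / ((8 * k ^ 2).choose k : ℝ) - ε) * (V.card.choose (k + 1) : ℝ) ≤
      (((V.powersetCard (k + 1)).filter (fun H => Realised q a H)).card : ℝ) := by
  obtain ⟨K, hK2, hit⟩ := rainbow k hk
  have hK : 1 ≤ K := by omega
  set T : ℕ := 8 * k ^ 2 + 1 with hT
  have hkk : k ≤ 8 * k ^ 2 := by nlinarith
  set β : ℝ := 1 / ((8 * k ^ 2).choose k : ℝ) with hβ
  have hch : 0 < ((8 * k ^ 2).choose k : ℝ) := by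
    exact_mod_cast Nat.choose_pos hkk
  rcases le_or_gt β ε with hle | hlt
  · refine ⟨0, fun q a _ _ V _ _ => ?_⟩
    have : (β - ε) * (V.card.choose (k + 1) : ℝ) ≤ 0 :=
      mul_nonpos_of_nonpos_of_nonneg (by linarith) (by positivity)
    exact this.trans (by positivity)
  set x : ℝ := β - ε / 2 with hx
  have hx0 : 0 ≤ x := by rw [hx]; linarith
  have hx1 : ((T - 1).choose ((k + 1) - 1) : ℝ) * x < 1 := by
    rw [hT]
    simp only [Nat.add_sub_cancel]
    rw [hx, hβ, mul_sub, mul_one_div_cancel hch.ne']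
    have : 0 < ((8 * k ^ 2).choose k : ℝ) * (ε / 2) := by positivity
    linarith
  set Q : ℕ := (T * K).factorial with hQdef
  have hQ0 : 0 < Q := Nat.factorial_pos _
  obtain ⟨n₀, hn₀⟩ := turan_blowup (r := k + 1) (T := T) (K := Q * K) (by omega)
    (by omega) (Nat.mul_pos hQ0 hK) hx0 hx1
  refine ⟨max n₀ (max (k + 1) (⌊2 * ((k + 1 : ℕ) : ℝ) ^ 2 / ε⌋₊ + 1)),
    fun q a hq haq V hV hcard => ?_⟩
  by_contra hcon
  push Not at hcon
  have hWc : Fintype.card V = V.card := by simp
  have hW0 : n₀ ≤ Fintype.card V := by rw [hWc]; exact (le_max_left _ _).trans hcard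
  have hW1 : k + 1 ≤ Fintype.card V := by
    rw [hWc]; exact (le_max_left _ _).trans ((le_max_right _ _).trans hcard)
  have hW2 : ⌊2 * ((k + 1 : ℕ) : ℝ) ^ 2 / ε⌋₊ + 1 ≤ Fintype.card V := by
    rw [hWc]; exact (le_max_right _ _).trans ((le_max_right _ _).trans hcard)
  set n : ℝ := (Fintype.card V : ℝ) with hn
  have hn0 : 0 < n := by
    rw [hn]
    have : 0 < Fintype.card V := by omega
    exact_mod_cast this
  have hnε : ((k + 1 : ℕ) : ℝ) ^ 2 / n ≤ ε / 2 := by
    have h1 : 2 * ((k + 1 : ℕ) : ℝ) ^ 2 / ε < n := by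
      calc 2 * ((k + 1 : ℕ) : ℝ) ^ 2 / ε < ⌊2 * ((k + 1 : ℕ) : ℝ) ^ 2 / ε⌋₊ + 1 :=
            Nat.lt_floor_add_one _
        _ ≤ n := by rw [hn]; exact_mod_cast hW2
    rw [div_lt_iff₀ hε] at h1
    rw [div_le_iff₀ hn0]
    linarith
  -- the bad sets
  set B : Finset (Finset V) := univ.filter fun I => I.card = k + 1 ∧
    ¬ Realised q a (I.image (fun v : V => (v : ℕ))) with hB
  have hBr : ∀ I ∈ B, I.card = k + 1 := fun I hI => (mem_filter.1 hI).2.1
  have hcount : (Fintype.card V).choose (k + 1) ≤ B.card +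
      ((V.powersetCard (k + 1)).filter (fun H => Realised q a H)).card := by
    have h1 : (univ : Finset V).powersetCard (k + 1) ⊆ B ∪
        (univ.filter fun I : Finset V => I.image (fun v : V => (v : ℕ)) ∈
          (V.powersetCard (k + 1)).filter (fun H => Realised q a H)) := by
      intro I hI
      rw [mem_powersetCard] at hI
      rw [mem_union, hB, mem_filter, mem_filter, mem_filter, mem_powersetCard]
      by_cases hr : Realised q a (I.image (fun v : V => (v : ℕ)))
      · right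
        refine ⟨mem_univ _, ⟨?_, ?_⟩, hr⟩
        · intro v hv
          obtain ⟨w, _, rfl⟩ := mem_image.1 hv
          exact w.2
        · rw [card_image_of_injective _ Subtype.val_injective, hI.2]
      · left
        exact ⟨mem_univ _, hI.2, hr⟩
    have h2 := (card_le_card h1).trans (card_union_le _ _)
    rw [card_powersetCard, card_univ] at h2
    refine h2.trans (Nat.add_le_add_left ?_ _)
    apply card_le_card_of_injOn (fun I => I.image (fun v : V => (v : ℕ)))
    · intro I hI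
      exact (mem_filter.1 hI).2
    · intro I _ I' _ he
      exact image_injective Subtype.val_injective he
  have hbad : (1 - x) * n ^ (k + 1) ≤ cnt B (k + 1) (k + 1) := by
    have h3 := cnt_ge B (k + 1) hBr
    have h4 : ((k + 1).factorial : ℝ) * B.card ≤ cnt B (k + 1) (k + 1) := by exact_mod_cast h3
    have h5 : (1 - (β - ε)) * ((Fintype.card V).choose (k + 1) : ℝ) ≤ B.card := by
      have h6 : ((Fintype.card V).choose (k + 1) : ℝ) ≤ B.card +
        (((V.powersetCard (k + 1)).filter (fun H => Realised q a H)).card : ℝ) := by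
        exact_mod_cast hcount
      rw [← hWc] at hcon
      linarith
    have h7 : ((k + 1).factorial : ℝ) * ((Fintype.card V).choose (k + 1) : ℝ) =
        ((Fintype.card V).descFactorial (k + 1) : ℝ) := by
      rw [Nat.descFactorial_eq_factorial_mul_choose]
      push_cast
      ring
    have h8 : n ^ (k + 1) - ((k + 1 : ℕ) : ℝ) ^ 2 / n * n ^ (k + 1) ≤
        ((Fintype.card V).descFactorial (k + 1) : ℝ) := by
      have h9 := card_noninj V (k + 1) hW1 (by omega)
      rw [← hn] at h9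
      have h10 : (univ.filter fun y : Fin (k + 1) → V => Function.Injective y).card =
          (Fintype.card V).descFactorial (k + 1) := by
        rw [← Fintype.card_subtype, Fintype.card_congr (Equiv.subtypeInjectiveEquivEmbedding _ V),
          Fintype.card_embedding_eq, Fintype.card_fin]
      have h11 := card_filter_add_card_filter_not (s := (univ : Finset (Fin (k + 1) → V)))
        (fun y => Function.Injective y)
      rw [card_univ, Fintype.card_fun, Fintype.card_fin, h10] at h11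
      have h12 : (((Fintype.card V).descFactorial (k + 1) : ℕ) : ℝ) +
        ((univ.filter fun y : Fin (k + 1) → V => ¬ Function.Injective y).card : ℝ) = n ^ (k + 1) := by
        rw [hn]
        exact_mod_cast h11
      linarith
    have h13 : ((k + 1 : ℕ) : ℝ) ^ 2 / n * n ^ (k + 1) ≤ ε / 2 * n ^ (k + 1) := by gcongr
    have hβ1 : β ≤ 1 := by
      rw [hβ, div_le_one hch]
      exact_mod_cast Nat.choose_pos hkk
    have h14 : (1 - (β - ε)) * (1 - ε / 2) * n ^ (k + 1) ≤
        (1 - (β - ε)) * ((Fintype.card V).descFactorial (k + 1) : ℝ) := by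
      rw [mul_assoc]
      apply mul_le_mul_of_nonneg_left _ (by linarith)
      linarith
    have h15 : (1 - x) ≤ (1 - (β - ε)) * (1 - ε / 2) := by
      rw [hx]
      nlinarith
    have hnp : 0 ≤ n ^ (k + 1) := by positivity
    calc (1 - x) * n ^ (k + 1) ≤ (1 - (β - ε)) * (1 - ε / 2) * n ^ (k + 1) :=
          mul_le_mul_of_nonneg_right h15 hnp
      _ ≤ (1 - (β - ε)) * ((Fintype.card V).descFactorial (k + 1) : ℝ) := h14
      _ = ((k + 1).factorial : ℝ) * ((1 - (β - ε)) * ((Fintype.card V).choose (k + 1) : ℝ)) := by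
          rw [← h7]; ring
      _ ≤ ((k + 1).factorial : ℝ) * B.card := mul_le_mul_of_nonneg_left h5 (by positivity)
      _ ≤ _ := h4
  obtain ⟨A, hAK, hA⟩ := hn₀ V hW0 B hbad
  obtain ⟨H, hHinj, hHadm, hHc⟩ := exists_familyQ hV hBr (by omega) (by omega) hK hQ0
    (fun p hp hpp => Nat.dvd_factorial hpp.pos hp) hAK hA
  obtain ⟨G, c, hG, hreal⟩ := hit q a hq haq (fun g i => (H g i : ℕ)) hHinj hHadm
  have h6 := hHc c G hG
  rw [hB, mem_filter] at h6
  apply h6.2.2
  rw [image_image]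
  exact hreal

end Pool.Agent.E8helper66.CP
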