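import Mathlib
import Pool.Agent.E8helper66.CP.Dens

/-! Clusters of positions: the gap in front of (behind) several primes of one cluster. -/

set_option autoImplicit false

namespace Pool.Agent.E8helper66.CP

open Finset
open Pool.Agent.TH779.Ord (fn)

theorem fn_one_le (m : ℕ) : fn 1 m ≤ if 0 < m then 1 else 0 := by
  unfold fn
  split_ifs with h
  · nlinarith [sq_nonneg ((m : ℝ) - 1)]
  · have : m = 0 := by omega
    subst this
    simp

/-- some cluster in the middle is hit by many classes -/
theorem cluster (k L : ℕ) (hL : 96 * k + 1 ≤ L) (D : Finset ℕ) (hD : ∀ d ∈ D, d < 96 * L)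
    (h3 : 3 * L ≤ D.card) : ∃ j, (∃ d ∈ D, d / L < j) ∧ (∃ d ∈ D, j < d / L) ∧
      k < (D.filter (fun d => d / L = j)).card := by
  classical
  have hL0 : 0 < L := by omega
  have hne : D.Nonempty := card_pos.1 (by omega)
  obtain ⟨d₁, hd₁, hmin⟩ := exists_min_image D (fun d => d / L) hne
  obtain ⟨d₂, hd₂, hmax⟩ := exists_max_image D (fun d => d / L) hne
  set D' := D.filter (fun d => d₁ / L < d / L ∧ d / L < d₂ / L) with hD'
  have hfib : ∀ j, (D.filter (fun d => d / L = j)).card ≤ L := by
    intro j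
    have h1 : D.filter (fun d => d / L = j) ⊆ Ico (j * L) (j * L + L) := by
      intro d hd
      have h2 := (mem_filter.1 hd).2
      have h4 := Nat.div_add_mod d L
      have h5 := Nat.mod_lt d hL0
      rw [h2, mul_comm] at h4
      rw [mem_Ico]
      omega
    refine (card_le_card h1).trans ?_
    rw [Nat.card_Ico]
    omega
  have hcov : D ⊆ D' ∪ (D.filter (fun d => d / L = d₁ / L) ∪ D.filter (fun d => d / L = d₂ / L)) := by
    intro d hd
    have h1 := hmin d hd
    have h2 := hmax d hd
    rw [mem_union, mem_union, hD', mem_filter, mem_filter, mem_filter]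
    simp only [hd, true_and]
    omega
  have hcard : L ≤ D'.card := by
    have h1 := card_le_card hcov
    have h2 := card_union_le D' (D.filter (fun d => d / L = d₁ / L) ∪ D.filter (fun d => d / L = d₂ / L))
    have h4 := card_union_le (D.filter (fun d => d / L = d₁ / L)) (D.filter (fun d => d / L = d₂ / L))
    have h5 := hfib (d₁ / L)
    have h6 := hfib (d₂ / L)
    omega
  obtain ⟨j, _, hj⟩ := exists_lt_card_fiber_of_mul_lt_card_of_maps_to (s := D') (t := range 96)
    (f := fun d => d / L) (n := k)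
    (fun d hd => mem_range.2 ((Nat.div_lt_iff_lt_mul hL0).2 (hD d (mem_filter.1 hd).1)))
    (by rw [card_range]; omega)
  obtain ⟨d, hd⟩ := card_pos.1 (Nat.zero_lt_of_lt hj)
  rw [mem_filter, hD', mem_filter] at hd
  obtain ⟨⟨_, h1, h2⟩, h4⟩ := hd
  refine ⟨j, ⟨d₁, hd₁, by omega⟩, ⟨d₂, hd₂, by omega⟩, hj.trans_le (card_le_card ?_)⟩
  intro d hd
  rw [mem_filter] at hd ⊢
  exact ⟨(mem_filter.1 hd.1).1, hd.2⟩

/-- the pattern of the primes before and inside a cluster, and inside and behind a cluster -/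
theorem clusters (k : ℕ) : ∃ r : ℕ, 1 ≤ r ∧ ∀ q a : ℕ, 1 ≤ q → Nat.Coprime a q →
    ∀ h : ℕ → ℕ, (∀ x < 96 * r, ∀ y < 96 * r, h x = h y → x = y) →
    (∀ p, p.Prime → ∃ s, ∀ x < 96 * r, ¬ p ∣ s + h x) →
    (∀ x < 96 * r, ∀ y < 96 * r, x / r < y / r → h x < h y) →
    (∃ (x₀ : ℕ) (x : Fin (k + 1) → ℕ), x₀ < 96 * r ∧ (∀ i, x i < 96 * r) ∧ x₀ / r < x 0 / r ∧
      (∀ i, x i / r = x 0 / r) ∧ StrictMono (fun i => h (x i)) ∧
      Realised q a (insert (h x₀) (univ.image (fun i => h (x i))))) ∧
    (∃ (x₀ : ℕ) (x : Fin (k + 1) → ℕ), x₀ < 96 * r ∧ (∀ i, x i < 96 * r) ∧ x 0 / r < x₀ / r ∧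
      (∀ i, x i / r = x 0 / r) ∧ StrictMono (fun i => h (x i)) ∧
      Realised q a (insert (h x₀) (univ.image (fun i => h (x i))))) := by
  classical
  obtain ⟨L, hL⟩ : ∃ L, L = 96 * k + 1 := ⟨_, rfl⟩
  obtain ⟨K, hK, hmain⟩ := exact_opt (96 * L) 1 (1 / 2) (by omega) le_rfl (by norm_num) (by norm_num)
  have hK0 : 0 < K := by omega
  have hL0 : 0 < L := by omega
  refine ⟨K * L, Nat.mul_pos hK0 hL0, ?_⟩
  intro q a hq haq h hinj hadm hord
  have eN : 96 * (K * L) = 96 * L * K := by ring
  obtain ⟨J, hJ, hfn, hinf⟩ := hmain q a hq haq h (by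
    intro x hx y hy
    exact hinj x (by rw [eN]; exact hx) y (by rw [eN]; exact hy)) (by
    intro p hp _
    obtain ⟨s, hs⟩ := hadm p hp
    exact ⟨s, fun x hx => hs x (by rw [eN]; exact hx)⟩)
  have hJ' : ∀ x ∈ J, x < 96 * (K * L) := fun x hx => by rw [eN]; exact hJ x hx
  set D := J.image (fun x => x / K) with hD
  have hDcard : 3 * L ≤ D.card := by
    have h1 : ∑ g ∈ range (96 * L), fn 1 (J.filter (fun x => x / K = g)).card ≤ D.card := by
      have h2 : ∑ g ∈ range (96 * L), fn 1 (J.filter (fun x => x / K = g)).card ≤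
          ∑ g ∈ range (96 * L), if g ∈ D then (1 : ℝ) else 0 := by
        apply sum_le_sum
        intro g _
        refine (fn_one_le _).trans ?_
        split_ifs with h4 h5 h5
        · exact le_rfl
        · exfalso
          apply h5
          obtain ⟨x, hx⟩ := card_pos.1 h4
          rw [mem_filter] at hx
          exact mem_image.2 ⟨x, hx.1, hx.2⟩
        · norm_num
        · exact le_rfl
      refine h2.trans ?_
      rw [← sum_filter, sum_const, nsmul_eq_mul, mul_one]
      have : ((range (96 * L)).filter (fun g => g ∈ D)).card ≤ D.card := by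
        apply card_le_card
        intro g hg
        exact (mem_filter.1 hg).2
      exact_mod_cast this
    have h2 := hfn.trans h1
    have h4 : ((3 * L : ℕ) : ℝ) ≤ (D.card : ℝ) := by
      refine le_trans (le_of_eq ?_) h2
      push_cast
      ring
    exact_mod_cast h4
  obtain ⟨j, ⟨d₁, hd₁, hj₁⟩, ⟨d₂, hd₂, hj₂⟩, hjk⟩ := cluster k L (by omega) D (by
    intro d hd
    obtain ⟨x, hx, rfl⟩ := mem_image.1 hd
    exact (Nat.div_lt_iff_lt_mul hK0).2 (hJ x hx)) hDcard
  have hdd : ∀ x, x / K / L = x / (K * L) := fun x => Nat.div_div_eq_div_mul x K L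
  -- the primes of the cluster
  set P := (J.filter (fun x => x / (K * L) = j)).image h with hP
  have hPcard : k < P.card := by
    refine hjk.trans_le ?_
    have h1 : (D.filter (fun d => d / L = j)) ⊆
        (J.filter (fun x => x / (K * L) = j)).image (fun x => x / K) := by
      intro d hd
      rw [mem_filter, hD, mem_image] at hd
      obtain ⟨⟨x, hx, rfl⟩, h2⟩ := hd
      rw [hdd] at h2
      exact mem_image.2 ⟨x, mem_filter.2 ⟨hx, h2⟩, rfl⟩
    refine (card_le_card h1).trans (card_image_le.trans (le_of_eq ?_))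
    symm
    apply card_image_of_injOn
    intro x hx y hy hxy
    exact hinj x (hJ' x (mem_filter.1 hx).1) y (hJ' y (mem_filter.1 hy).1) hxy
  set e := P.orderEmbOfFin rfl with he
  have heP : ∀ t, e t ∈ P := fun t => P.orderEmbOfFin_mem rfl t
  have hesurj : ∀ p ∈ P, ∃ t, e t = p := by
    intro p hp
    have h1 := P.range_orderEmbOfFin rfl
    have h2 : p ∈ Set.range e := by rw [h1]; exact hp
    exact h2
  have hex : ∀ t, ∃ x ∈ J, x / (K * L) = j ∧ h x = e t := by
    intro t
    obtain ⟨x, hx, hx2⟩ := mem_image.1 (heP t)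
    rw [mem_filter] at hx
    exact ⟨x, hx.1, hx.2, hx2⟩
  choose ξ hξJ hξj hξ using hex
  constructor
  · -- in front
    set A := (J.filter (fun x => x / (K * L) < j)).image h with hA
    have hAne : A.Nonempty := by
      obtain ⟨x, hx, rfl⟩ := mem_image.1 hd₁
      rw [hdd] at hj₁
      exact ⟨h x, mem_image.2 ⟨x, mem_filter.2 ⟨hx, hj₁⟩, rfl⟩⟩
    obtain ⟨x₀, hx₀, hx₀m⟩ := mem_image.1 (A.max'_mem hAne)
    rw [mem_filter] at hx₀
    have hi : ∀ i : Fin (k + 1), (i : ℕ) < P.card := fun i => by omega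
    refine ⟨x₀, fun i => ξ ⟨i, hi i⟩, hJ' _ hx₀.1, fun i => hJ' _ (hξJ _), ?_, ?_, ?_, ?_⟩
    · rw [hξj]; exact hx₀.2
    · intro i; rw [hξj, hξj]
    · intro i i' hii
      simp only [hξ]
      exact e.strictMono (Fin.mk_lt_mk.2 hii)
    · apply realised_of hq hJ hinf
      · intro z hz
        rw [mem_insert, mem_image] at hz
        rcases hz with rfl | ⟨i, _, rfl⟩
        · exact mem_image_of_mem h hx₀.1
        · exact mem_image_of_mem h (hξJ _)
      · have hlow : ∀ i ∈ insert (h x₀) (univ.image (fun i : Fin (k + 1) => h (ξ ⟨i, hi i⟩))),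
            h x₀ ≤ i := by
          intro i hi'
          rw [mem_insert, mem_image] at hi'
          rcases hi' with rfl | ⟨i, _, rfl⟩
          · exact le_rfl
          · exact (hord x₀ (hJ' _ hx₀.1) _ (hJ' _ (hξJ _)) (by rw [hξj]; exact hx₀.2)).le
        have hupp : ∀ i ∈ insert (h x₀) (univ.image (fun i : Fin (k + 1) => h (ξ ⟨i, hi i⟩))),
            i ≤ e ⟨k, hPcard⟩ := by
          intro i hi'
          rw [mem_insert, mem_image] at hi'
          rcases hi' with rfl | ⟨i, _, rfl⟩
          · rw [← hξ]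
            exact (hord x₀ (hJ' _ hx₀.1) _ (hJ' _ (hξJ _)) (by rw [hξj]; exact hx₀.2)).le
          · rw [hξ]
            exact e.monotone (Fin.mk_le_mk.2 (by have := i.2; omega))
        intro z hz i hi' i' hi'' h1 h2
        have h3 := (hlow i hi').trans h1
        have h4 := h2.trans (hupp i' hi'')
        obtain ⟨u, hu, rfl⟩ := mem_image.1 hz
        rcases lt_trichotomy (u / (K * L)) j with h5 | h5 | h5
        · have h6 : h u ≤ A.max' hAne := A.le_max' _ (mem_image_of_mem h (mem_filter.2 ⟨hu, h5⟩))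
          rw [← hx₀m] at h6
          rw [le_antisymm h6 h3]
          exact mem_insert_self _ _
        · obtain ⟨t, ht⟩ := hesurj (h u) (mem_image_of_mem h (mem_filter.2 ⟨hu, h5⟩))
          rw [← ht] at h4
          have h6 := e.le_iff_le.1 h4
          have h7 : (t : ℕ) ≤ k := h6
          apply mem_insert_of_mem
          rw [mem_image]
          refine ⟨⟨t, by omega⟩, mem_univ _, ?_⟩
          rw [hξ]
          exact ht
        · exfalso
          have h6 := hord _ (hJ' _ (hξJ ⟨k, hPcard⟩)) u (hJ' u hu) (by rw [hξj]; exact h5)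
          rw [hξ] at h6
          omega
  · -- behind
    set A := (J.filter (fun x => j < x / (K * L))).image h with hA
    have hAne : A.Nonempty := by
      obtain ⟨x, hx, rfl⟩ := mem_image.1 hd₂
      rw [hdd] at hj₂
      exact ⟨h x, mem_image.2 ⟨x, mem_filter.2 ⟨hx, hj₂⟩, rfl⟩⟩
    obtain ⟨x₀, hx₀, hx₀m⟩ := mem_image.1 (A.min'_mem hAne)
    rw [mem_filter] at hx₀
    have hi : ∀ i : Fin (k + 1), P.card - (k + 1) + (i : ℕ) < P.card := fun i => by omega
    refine ⟨x₀, fun i => ξ ⟨P.card - (k + 1) + i, hi i⟩, hJ' _ hx₀.1, fun i => hJ' _ (hξJ _),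
      ?_, ?_, ?_, ?_⟩
    · rw [hξj]; exact hx₀.2
    · intro i; rw [hξj, hξj]
    · intro i i' hii
      simp only [hξ]
      exact e.strictMono (Fin.mk_lt_mk.2 (Nat.add_lt_add_left hii _))
    · apply realised_of hq hJ hinf
      · intro z hz
        rw [mem_insert, mem_image] at hz
        rcases hz with rfl | ⟨i, _, rfl⟩
        · exact mem_image_of_mem h hx₀.1
        · exact mem_image_of_mem h (hξJ _)
      · have hupp : ∀ i ∈ insert (h x₀) (univ.image
            (fun i : Fin (k + 1) => h (ξ ⟨P.card - (k + 1) + i, hi i⟩))), i ≤ h x₀ := by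
          intro i hi'
          rw [mem_insert, mem_image] at hi'
          rcases hi' with rfl | ⟨i, _, rfl⟩
          · exact le_rfl
          · exact (hord _ (hJ' _ (hξJ _)) x₀ (hJ' _ hx₀.1) (by rw [hξj]; exact hx₀.2)).le
        have hc0 : P.card - (k + 1) < P.card := by omega
        have hlow : ∀ i ∈ insert (h x₀) (univ.image
            (fun i : Fin (k + 1) => h (ξ ⟨P.card - (k + 1) + i, hi i⟩))),
            e ⟨P.card - (k + 1), hc0⟩ ≤ i := by
          intro i hi'
          rw [mem_insert, mem_image] at hi'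
          rcases hi' with rfl | ⟨i, _, rfl⟩
          · rw [← hξ]
            exact (hord _ (hJ' _ (hξJ _)) x₀ (hJ' _ hx₀.1) (by rw [hξj]; exact hx₀.2)).le
          · rw [hξ]
            exact e.monotone (Fin.mk_le_mk.2 (by omega))
        intro z hz i hi' i' hi'' h1 h2
        have h3 := (hlow i hi').trans h1
        have h4 := h2.trans (hupp i' hi'')
        obtain ⟨u, hu, rfl⟩ := mem_image.1 hz
        rcases lt_trichotomy (u / (K * L)) j with h5 | h5 | h5
        · exfalso
          have h6 := hord u (hJ' u hu) _ (hJ' _ (hξJ ⟨P.card - (k + 1), hc0⟩))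
            (by rw [hξj]; exact h5)
          rw [hξ] at h6
          omega
        · obtain ⟨t, ht⟩ := hesurj (h u) (mem_image_of_mem h (mem_filter.2 ⟨hu, h5⟩))
          rw [← ht] at h3
          have h6 := e.le_iff_le.1 h3
          have h7 : P.card - (k + 1) ≤ (t : ℕ) := h6
          apply mem_insert_of_mem
          rw [mem_image]
          have ht2 := t.2
          refine ⟨⟨t - (P.card - (k + 1)), by omega⟩, mem_univ _, ?_⟩
          rw [hξ, ← ht]
          congr 1
          apply Fin.ext
          simp only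
          omega
        · have h6 : A.min' hAne ≤ h u := A.min'_le _ (mem_image_of_mem h (mem_filter.2 ⟨hu, h5⟩))
          rw [← hx₀m] at h6
          rw [le_antisymm h4 h6]
          exact mem_insert_self _ _

end Pool.Agent.E8helper66.CP
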