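import Mathlib
import Pool.Agent.E8helper66.CP.Clu

/-! Configurations of clusters. -/

set_option autoImplicit false

namespace Pool.Agent.E8helper66.CP

open Finset

/-- the beginning of the cluster number `c` -/
def base (B : ℕ) (w : Fin 96 → ℕ) (c : ℕ) : ℕ := ∑ l : Fin 96, if (l : ℕ) ≤ c then B + w l else 0

/-- the position number `z` -/
def hpos (E B r : ℕ) (w : Fin 96 → ℕ) (f : ℕ → ℕ) (z : ℕ) : ℕ := E * (base B w (z / r) + f z)

theorem base_lt {B : ℕ} {w : Fin 96 → ℕ} {c c' : ℕ} (h : c < c') (hc : c' < 96) :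
    base B w c + B ≤ base B w c' := by
  unfold base
  have h1 : (∑ l : Fin 96, if (l : ℕ) ≤ c then B + w l else 0) +
      (∑ l : Fin 96, if (l : ℕ) = c' then B else 0) ≤ ∑ l : Fin 96, if (l : ℕ) ≤ c' then B + w l else 0 := by
    rw [← sum_add_distrib]
    apply sum_le_sum
    intro l _
    split_ifs <;> omega
  have h2 : (∑ l : Fin 96, if (l : ℕ) = c' then B else 0) = B := by
    rw [sum_eq_single (⟨c', hc⟩ : Fin 96)]
    · simp
    · intro l _ hl
      rw [if_neg]
      intro h3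
      exact hl (Fin.ext h3)
    · intro h3
      exact absurd (mem_univ _) h3
  omega

theorem base_congr {B : ℕ} {w w' : Fin 96 → ℕ} {c : ℕ} (h : ∀ l : Fin 96, (l : ℕ) ≤ c → w l = w' l) :
    base B w c = base B w' c := by
  unfold base
  apply sum_congr rfl
  intro l _
  split_ifs with h1
  · rw [h l h1]
  · rfl

theorem base_inj {B : ℕ} {w w' : Fin 96 → ℕ} (j : Fin 96) (h : ∀ l, l ≠ j → w l = w' l)
    (he : base B w j = base B w' j) : w = w' := by
  unfold base at he
  rw [← add_sum_erase _ _ (mem_univ j), ← add_sum_erase _ _ (mem_univ j)] at he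
  have h1 : ∑ x ∈ univ.erase j, (if (x : ℕ) ≤ j then B + w x else 0) =
      ∑ x ∈ univ.erase j, (if (x : ℕ) ≤ j then B + w' x else 0) := by
    apply sum_congr rfl
    intro x hx
    rw [h x (ne_of_mem_erase hx)]
  rw [h1, if_pos le_rfl, if_pos le_rfl] at he
  funext l
  by_cases hl : l = j
  · subst hl; omega
  · exact h l hl

theorem base_le {B Y : ℕ} {w : Fin 96 → ℕ} (c : ℕ) (hw : ∀ l, w l ≤ Y) : base B w c ≤ 96 * (B + Y) := by
  unfold base
  calc _ ≤ ∑ _l : Fin 96, (B + Y) := by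
        apply sum_le_sum
        intro l _
        split_ifs
        · have := hw l; omega
        · omega
    _ = 96 * (B + Y) := by simp

theorem hpos_lt {E B r : ℕ} {w : Fin 96 → ℕ} {f : ℕ → ℕ} (hE : 0 < E) {x y : ℕ}
    (hy : y < 96 * r) (hf : f x < B) (hxy : x / r < y / r) :
    hpos E B r w f x < hpos E B r w f y := by
  unfold hpos
  have hr : 0 < r := by
    rcases Nat.eq_zero_or_pos r with h | h
    · subst h; omega
    · exact h
  have h1 : y / r < 96 := (Nat.div_lt_iff_lt_mul hr).2 hy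
  have h2 := base_lt (B := B) (w := w) hxy h1
  apply Nat.mul_lt_mul_of_pos_left _ hE
  omega

theorem hpos_inj {E B r : ℕ} {w : Fin 96 → ℕ} {f : ℕ → ℕ} (hE : 0 < E) {x y : ℕ} (hx : x < 96 * r)
    (hy : y < 96 * r) (hfx : f x < B) (hfy : f y < B) (hinj : x / r = y / r → f x = f y → x = y)
    (h : hpos E B r w f x = hpos E B r w f y) : x = y := by
  rcases lt_trichotomy (x / r) (y / r) with h1 | h1 | h1
  · exact absurd h (hpos_lt hE hy hfx h1).ne
  · apply hinj h1
    unfold hpos at h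
    have h2 := Nat.eq_of_mul_eq_mul_left hE h
    rw [h1] at h2
    omega
  · exact absurd h (hpos_lt hE hx hfy h1).ne'

/-- admissible: few positions, all divisible by all small primes -/
theorem adm_of {N : ℕ} {h : ℕ → ℕ} (hd : ∀ x < N, N.factorial ∣ h x) (p : ℕ) (hp : p.Prime) :
    ∃ s, ∀ x < N, ¬ p ∣ s + h x := by
  classical
  rcases le_or_gt p N with h1 | h1
  · refine ⟨1, fun x hx hd' => ?_⟩
    have h2 : p ∣ h x := (Nat.dvd_factorial hp.pos h1).trans (hd x hx)
    have h3 : p ∣ 1 := (Nat.dvd_add_left h2).1 hd'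
    exact hp.one_lt.ne' (Nat.dvd_one.1 h3)
  · have : Fact p.Prime := ⟨hp⟩
    set s : Finset (ZMod p) := (range N).image fun x => -(h x : ZMod p) with hs
    have hc : s.card < Fintype.card (ZMod p) := by
      calc s.card ≤ (range N).card := card_image_le
        _ = N := card_range N
        _ < p := h1
        _ = _ := (ZMod.card p).symm
    obtain ⟨n, hn⟩ : ∃ n : ZMod p, n ∉ s := by
      by_contra h
      push Not at h
      have : s = univ := by
        ext x; simp [h x]
      rw [this, card_univ] at hc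
      exact lt_irrefl _ hc
    refine ⟨n.val, fun x hx hd' => hn ?_⟩
    rw [hs, mem_image]
    refine ⟨x, mem_range.2 hx, ?_⟩
    have h2 := (ZMod.natCast_eq_zero_iff (n.val + h x) p).2 hd'
    push_cast at h2
    rw [ZMod.natCast_zmod_val] at h2
    rw [eq_comm, eq_neg_iff_add_eq_zero]
    exact h2

/-- translation of a pattern -/
theorem Realised.shift {q a p₀ : ℕ} {I I' : Finset ℕ} (h : Realised q a I)
    (hI : I = I'.image (fun u => p₀ + u)) : Realised q a I' := by
  have hinj : Set.InjOn (fun n : ℕ => n + q * p₀) (Set.univ : Set ℕ) := by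
    intro x _ y _ hxy
    simp only at hxy
    omega
  refine Set.Infinite.mono ?_ (Set.Infinite.image (hinj.mono (Set.subset_univ _)) h)
  rintro _ ⟨n, ⟨h1, h2⟩, rfl⟩
  simp only
  refine ⟨?_, ?_⟩
  · have h3 : q * p₀ ≡ 0 [MOD q] := (Nat.modEq_zero_iff_dvd).2 (Nat.dvd_mul_right q p₀)
    simpa using Nat.ModEq.add h1 h3
  · rintro m ⟨i, hi, him⟩ ⟨j, hj, hjm⟩
    have h3 := h2 m ⟨p₀ + i, by rw [hI]; exact mem_image_of_mem _ hi, by rw [Nat.mul_add]; omega⟩
      ⟨p₀ + j, by rw [hI]; exact mem_image_of_mem _ hj, by rw [Nat.mul_add]; omega⟩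
    rw [h3]
    constructor
    · rintro ⟨z, hz, rfl⟩
      rw [hI] at hz
      obtain ⟨u, hu, rfl⟩ := mem_image.1 hz
      exact ⟨u, hu, by ring⟩
    · rintro ⟨u, hu, rfl⟩
      exact ⟨p₀ + u, by rw [hI]; exact mem_image_of_mem _ hu, by ring⟩

/-- the prime patterns of a configuration -/
theorem cfg (k : ℕ) : ∃ r : ℕ, 1 ≤ r ∧ ∀ q a : ℕ, 1 ≤ q → Nat.Coprime a q →
    ∀ (E B : ℕ) (w : Fin 96 → ℕ) (f : ℕ → ℕ), 0 < E → (96 * r).factorial ∣ E →
    (∀ x < 96 * r, f x < B) → (∀ x < 96 * r, ∀ y < 96 * r, x / r = y / r → f x = f y → x = y) →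
    (∃ (x₀ : ℕ) (x : Fin (k + 1) → ℕ), x₀ < 96 * r ∧ (∀ i, x i < 96 * r) ∧ x₀ / r < x 0 / r ∧
      (∀ i, x i / r = x 0 / r) ∧ StrictMono (fun i => hpos E B r w f (x i)) ∧
      hpos E B r w f x₀ < hpos E B r w f (x 0) ∧
      Realised q a (insert 0 (univ.image (fun i => hpos E B r w f (x i) - hpos E B r w f x₀)))) ∧
    (∃ (x₀ : ℕ) (x : Fin (k + 1) → ℕ), x₀ < 96 * r ∧ (∀ i, x i < 96 * r) ∧ x 0 / r < x₀ / r ∧
      (∀ i, x i / r = x 0 / r) ∧ StrictMono (fun i => hpos E B r w f (x i)) ∧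
      (∀ i, hpos E B r w f (x i) < hpos E B r w f x₀) ∧
      Realised q a (insert (hpos E B r w f x₀ - hpos E B r w f (x 0))
        (univ.image (fun i => hpos E B r w f (x i) - hpos E B r w f (x 0))))) := by
  classical
  obtain ⟨r, hr, hmain⟩ := clusters k
  refine ⟨r, hr, fun q a hq haq E B w f hE hdvd hfB hfinj => ?_⟩
  obtain ⟨h1, h2⟩ := hmain q a hq haq (hpos E B r w f)
    (fun x hx y hy h => hpos_inj hE hx hy (hfB x hx) (hfB y hy) (hfinj x hx y hy) h)
    (adm_of fun x _ => hdvd.trans (Nat.dvd_mul_right _ _))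
    (fun x hx y hy h => hpos_lt hE hy (hfB x hx) h)
  constructor
  · obtain ⟨x₀, x, g1, g2, g3, g4, g5, g6⟩ := h1
    have g7 : hpos E B r w f x₀ < hpos E B r w f (x 0) := hpos_lt hE (g2 0) (hfB _ g1) g3
    refine ⟨x₀, x, g1, g2, g3, g4, g5, g7, g6.shift (p₀ := hpos E B r w f x₀) ?_⟩
    rw [image_insert, image_image]
    have e0 : hpos E B r w f x₀ + 0 = hpos E B r w f x₀ := rfl
    rw [e0]
    congr 1
    apply image_congr
    intro i _
    have : hpos E B r w f (x 0) ≤ hpos E B r w f (x i) := g5.monotone (Fin.zero_le i)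
    simp only [Function.comp]
    omega
  · obtain ⟨x₀, x, g1, g2, g3, g4, g5, g6⟩ := h2
    have g7 : ∀ i, hpos E B r w f (x i) < hpos E B r w f x₀ := fun i =>
      hpos_lt hE g1 (hfB _ (g2 i)) (by rw [g4 i]; exact g3)
    refine ⟨x₀, x, g1, g2, g3, g4, g5, g7, g6.shift (p₀ := hpos E B r w f (x 0)) ?_⟩
    rw [image_insert, image_image]
    have g8 := g7 0
    rw [Nat.add_sub_cancel' g8.le]
    congr 1
    apply image_congr
    intro i _
    have : hpos E B r w f (x 0) ≤ hpos E B r w f (x i) := g5.monotone (Fin.zero_le i)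
    simp only [Function.comp]
    omega

end Pool.Agent.E8helper66.CP
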