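import Mathlib
import Pool.Agent.E8helper66.CP.Cfg

/-! Counting. -/

set_option autoImplicit false

namespace Pool.Agent.E8helper66.CP

open Finset

theorem determ {E B r : ℕ} (hE : 0 < E) {w w' : Fin 96 → ℕ} {f f' : ℕ → ℕ} {a b : ℕ}
    (D : ℕ → Prop) (j : Fin 96) (hj : (j : ℕ) = b / r) (hab : a / r < b / r) (haD : ¬ D a)
    (hbD : ¬ D b) (hw : ∀ l : Fin 96, l ≠ j → w l = w' l) (hf : ∀ z, ¬ D z → f z = f' z)
    (hz : ∀ z, z = b ∨ D z → hpos E B r w f z - hpos E B r w f a =
      hpos E B r w' f' z - hpos E B r w' f' a ∧ hpos E B r w f a ≤ hpos E B r w f z ∧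
      hpos E B r w' f' a ≤ hpos E B r w' f' z) :
    w = w' ∧ f = f' := by
  have h1 : hpos E B r w f a = hpos E B r w' f' a := by
    unfold hpos
    rw [hf a haD, base_congr (w := w) (w' := w') (fun l hl => hw l (by
      rintro rfl
      rw [hj] at hl
      omega))]
  have h2 : ∀ z, z = b ∨ D z → base B w (z / r) + f z = base B w' (z / r) + f' z := by
    intro z hzD
    obtain ⟨e1, e2, e3⟩ := hz z hzD
    have h3 : hpos E B r w f z = hpos E B r w' f' z := by omega
    exact Nat.eq_of_mul_eq_mul_left hE h3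
  have h4 : w = w' := by
    apply base_inj j hw (B := B)
    have h5 := h2 b (Or.inl rfl)
    rw [hf b hbD] at h5
    rw [hj]
    omega
  refine ⟨h4, ?_⟩
  funext z
  by_cases hzD : D z
  · have h5 := h2 z (Or.inr hzD)
    rw [h4] at h5
    omega
  · exact hf z hzD

theorem count_gen (k N Y X : ℕ) (hY : 0 < Y) (hX : 0 < X)
    (x₀ : (Fin 96 → Fin Y) × (Fin N → Fin X) → ℕ)
    (x : (Fin 96 → Fin Y) × (Fin N → Fin X) → Fin (k + 1) → ℕ)
    (u : (Fin 96 → Fin Y) × (Fin N → Fin X) → Fin (k + 2) → ℕ) (R : Finset (Fin (k + 2) → ℕ))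
    (hR : ∀ ω, u ω ∈ R) (hx₀ : ∀ ω, x₀ ω < N) (hx : ∀ ω i, x ω i < N)
    (hxinj : ∀ ω, Function.Injective (x ω)) (j : ℕ → (Fin (k + 1) → ℕ) → Fin 96)
    (det : ∀ ω ω', x₀ ω = x₀ ω' → x ω = x ω' → u ω = u ω' →
      (∀ l, l ≠ j (x₀ ω) (x ω) → ω.1 l = ω'.1 l) →
      (∀ z : Fin N, (∀ i : Fin k, x ω i.succ ≠ z) → ω.2 z = ω'.2 z) → ω = ω') :
    Y * X ^ k ≤ N ^ (k + 2) * R.card := by
  classical
  have : Nonempty (Fin Y) := ⟨⟨0, hY⟩⟩
  have : Nonempty (Fin X) := ⟨⟨0, hX⟩⟩
  set G : ((Fin 96 → Fin Y) × (Fin N → Fin X)) → (ℕ × (Fin (k + 1) → ℕ)) × (Fin (k + 2) → ℕ) := fun ω => ((x₀ ω, x ω), u ω) with hG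
  have hfib : ∀ b ∈ (univ : Finset ((Fin 96 → Fin Y) × (Fin N → Fin X))).image G,
      ((univ : Finset ((Fin 96 → Fin Y) × (Fin N → Fin X))).filter (fun ω => G ω = b)).card * (Y * X ^ k) ≤ Fintype.card ((Fin 96 → Fin Y) × (Fin N → Fin X)) := by
    intro b _
    obtain ⟨⟨b₀, bx⟩, bu⟩ := b
    have h1 : Y * X ^ k = (univ : Finset (Fin Y × (Fin k → Fin X))).card := by
      rw [card_univ, Fintype.card_prod, Fintype.card_fun, Fintype.card_fin, Fintype.card_fin,
        Fintype.card_fin]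
    rw [h1, ← card_product, ← card_univ]
    apply card_le_card_of_injOn (fun s : ((Fin 96 → Fin Y) × (Fin N → Fin X)) × (Fin Y × (Fin k → Fin X)) =>
      ((Function.update s.1.1 (j b₀ bx) s.2.1, fun z : Fin N =>
        if h : ∃ i : Fin k, bx i.succ = z then s.2.2 (Classical.choose h) else s.1.2 z) : ((Fin 96 → Fin Y) × (Fin N → Fin X))))
    · intro s _
      exact mem_coe.2 (mem_univ _)
    · rintro ⟨ω, y, t⟩ hs ⟨ω', y', t'⟩ hs' he
      rw [mem_coe, mem_product, mem_filter] at hs hs'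
      have g1 : G ω = ((b₀, bx), bu) := hs.1.2
      have g2 : G ω' = ((b₀, bx), bu) := hs'.1.2
      simp only [hG, Prod.mk.injEq] at g1 g2
      obtain ⟨⟨g3, g4⟩, g5⟩ := g1
      obtain ⟨⟨g3', g4'⟩, g5'⟩ := g2
      simp only [Prod.mk.injEq] at he
      obtain ⟨he1, he2⟩ := he
      have e1 : y = y' := by
        have := congrFun he1 (j b₀ bx)
        simpa using this
      have e2 : ∀ l, l ≠ j b₀ bx → ω.1 l = ω'.1 l := by
        intro l hl
        have := congrFun he1 l
        rwa [Function.update_of_ne hl, Function.update_of_ne hl] at this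
      have hbinj : Function.Injective bx := by rw [← g4]; exact hxinj ω
      have e3 : t = t' := by
        funext i
        have hlt : bx i.succ < N := by rw [← g4]; exact hx ω _
        have hex : ∃ i' : Fin k, bx i'.succ = ((⟨bx i.succ, hlt⟩ : Fin N) : ℕ) := ⟨i, rfl⟩
        have hch : Classical.choose hex = i := by
          have := Classical.choose_spec hex
          exact Fin.succ_injective _ (hbinj this)
        have := congrFun he2 ⟨bx i.succ, hlt⟩
        rw [dif_pos hex, dif_pos hex, hch] at this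
        exact this
      have e4 : ∀ z : Fin N, (∀ i : Fin k, bx i.succ ≠ z) → ω.2 z = ω'.2 z := by
        intro z hz
        have := congrFun he2 z
        rwa [dif_neg (by push Not; exact hz), dif_neg (by push Not; exact hz)] at this
      have e5 : ω = ω' := by
        apply det ω ω' (g3.trans g3'.symm) (g4.trans g4'.symm) (g5.trans g5'.symm)
        · rw [g3, g4]; exact e2
        · rw [g4]; exact e4
      rw [e1, e3, e5]
  have hsum : Fintype.card ((Fin 96 → Fin Y) × (Fin N → Fin X)) = ∑ b ∈ (univ : Finset ((Fin 96 → Fin Y) × (Fin N → Fin X))).image G,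
      ((univ : Finset ((Fin 96 → Fin Y) × (Fin N → Fin X))).filter (fun ω => G ω = b)).card := by
    rw [← card_univ]
    exact card_eq_sum_card_image G univ
  have h1 : Fintype.card ((Fin 96 → Fin Y) × (Fin N → Fin X)) * (Y * X ^ k) ≤ ((univ : Finset ((Fin 96 → Fin Y) × (Fin N → Fin X))).image G).card * Fintype.card ((Fin 96 → Fin Y) × (Fin N → Fin X)) := by
    calc Fintype.card ((Fin 96 → Fin Y) × (Fin N → Fin X)) * (Y * X ^ k) = ∑ b ∈ (univ : Finset ((Fin 96 → Fin Y) × (Fin N → Fin X))).image G,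
          ((univ : Finset ((Fin 96 → Fin Y) × (Fin N → Fin X))).filter (fun ω => G ω = b)).card * (Y * X ^ k) := by
          rw [hsum, sum_mul]
      _ ≤ ∑ _b ∈ (univ : Finset ((Fin 96 → Fin Y) × (Fin N → Fin X))).image G, Fintype.card ((Fin 96 → Fin Y) × (Fin N → Fin X)) := sum_le_sum hfib
      _ = _ := by rw [sum_const, smul_eq_mul]
  have hpos : 0 < Fintype.card ((Fin 96 → Fin Y) × (Fin N → Fin X)) := Fintype.card_pos
  have h2 : Y * X ^ k ≤ ((univ : Finset ((Fin 96 → Fin Y) × (Fin N → Fin X))).image G).card := by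
    rw [mul_comm (((univ : Finset ((Fin 96 → Fin Y) × (Fin N → Fin X))).image G).card)] at h1
    exact Nat.le_of_mul_le_mul_left h1 hpos
  refine h2.trans ?_
  have h3 : (univ : Finset ((Fin 96 → Fin Y) × (Fin N → Fin X))).image G ⊆
      ((range N) ×ˢ (Fintype.piFinset fun _ : Fin (k + 1) => range N)) ×ˢ R := by
    intro b hb
    obtain ⟨ω, _, rfl⟩ := mem_image.1 hb
    rw [mem_product, mem_product, mem_range, Fintype.mem_piFinset]
    exact ⟨⟨hx₀ ω, fun i => mem_range.2 (hx ω i)⟩, hR ω⟩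
  refine (card_le_card h3).trans (le_of_eq ?_)
  rw [card_product, card_product, card_range, Fintype.card_piFinset, prod_const, card_range,
    card_univ, Fintype.card_fin]
  ring

end Pool.Agent.E8helper66.CP
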