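import Mathlib
import Pool.Agent.E8helper66.CP.Cnt

/-! Boxes of patterns. -/

set_option autoImplicit false

namespace Pool.Agent.E8helper66.CP

open Finset

/-- the place of the position `z` in its cluster -/
def ff {N X : ℕ} (τ : Fin N → Fin X) (z : ℕ) : ℕ := if hz : z < N then N * (τ ⟨z, hz⟩ : ℕ) + z else 0

theorem ff_lt {N X : ℕ} (τ : Fin N → Fin X) {z : ℕ} (hz : z < N) : ff τ z < N * X + N := by
  unfold ff
  rw [dif_pos hz]
  have h1 := (τ ⟨z, hz⟩).2
  have h2 : N * (τ ⟨z, hz⟩ : ℕ) ≤ N * X := Nat.mul_le_mul_left N h1.le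
  omega

theorem ff_inj {N X : ℕ} (τ : Fin N → Fin X) {z z' : ℕ} (hz : z < N) (hz' : z' < N)
    (h : ff τ z = ff τ z') : z = z' := by
  unfold ff at h
  rw [dif_pos hz, dif_pos hz'] at h
  have h1 : (N * (τ ⟨z, hz⟩ : ℕ) + z) % N = z := by
    rw [Nat.mul_add_mod]; exact Nat.mod_eq_of_lt hz
  have h2 : (N * (τ ⟨z', hz'⟩ : ℕ) + z') % N = z' := by
    rw [Nat.mul_add_mod]; exact Nat.mod_eq_of_lt hz'
  rw [← h1, h, h2]

theorem ff_eq {N X : ℕ} {τ τ' : Fin N → Fin X} (h : ff τ = ff τ') : τ = τ' := by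
  funext z
  have h1 := congrFun h z
  unfold ff at h1
  rw [dif_pos z.2, dif_pos z.2] at h1
  have hN : 0 < N := by have := z.2; omega
  have h2 : N * (τ z : ℕ) = N * (τ' z : ℕ) := by
    have : (⟨(z : ℕ), z.2⟩ : Fin N) = z := rfl
    rw [this] at h1
    omega
  exact Fin.ext (Nat.eq_of_mul_eq_mul_left hN h2)

theorem image_cons {k : ℕ} (c : ℕ) (g : Fin k → ℕ) :
    (univ : Finset (Fin (k + 1))).image (Fin.cons c g : Fin (k + 1) → ℕ) = insert c (univ.image g) := by
  ext y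
  rw [mem_image, mem_insert, mem_image]
  constructor
  · rintro ⟨i, _, rfl⟩
    refine Fin.cases ?_ (fun i => ?_) i
    · left; simp
    · right; exact ⟨i, mem_univ _, by simp⟩
  · rintro (rfl | ⟨i, _, rfl⟩)
    · exact ⟨0, mem_univ _, by simp⟩
    · exact ⟨i.succ, mem_univ _, by simp⟩

theorem image_snoc {k : ℕ} (c : ℕ) (g : Fin k → ℕ) :
    (univ : Finset (Fin (k + 1))).image (Fin.snoc g c : Fin (k + 1) → ℕ) = insert c (univ.image g) := by
  ext y
  rw [mem_image, mem_insert, mem_image]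
  constructor
  · rintro ⟨i, _, rfl⟩
    refine Fin.lastCases ?_ (fun i => ?_) i
    · left; simp
    · right; exact ⟨i, mem_univ _, by simp⟩
  · rintro (rfl | ⟨i, _, rfl⟩)
    · exact ⟨Fin.last k, mem_univ _, by simp⟩
    · exact ⟨i.castSucc, mem_univ _, by simp⟩

/-- the patterns `0 = u 0 < u 1 < ... < u (k + 1)` with `u 1 ≤ Y` and `u (k + 1) ≤ u 1 + X` -/
def PatL (q a k X Y : ℕ) : Set (Fin (k + 2) → ℕ) :=
  {u | StrictMono u ∧ u 0 = 0 ∧ u 1 ≤ Y ∧ u (Fin.last (k + 1)) ≤ u 1 + X ∧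
    Realised q a (univ.image u)}

/-- the patterns `0 = u 0 < u 1 < ... < u (k + 1)` with `u k ≤ X` and `u (k + 1) ≤ u k + Y` -/
def PatR (q a k X Y : ℕ) : Set (Fin (k + 2) → ℕ) :=
  {u | StrictMono u ∧ u 0 = 0 ∧ u (Fin.last k).castSucc ≤ X ∧
    u (Fin.last (k + 1)) ≤ u (Fin.last k).castSucc + Y ∧ Realised q a (univ.image u)}

theorem PatL_finite (q a k X Y : ℕ) : (PatL q a k X Y).Finite := by
  apply ((Fintype.piFinset fun _ : Fin (k + 2) => range (X + Y + 1)).finite_toSet).subset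
  rintro u ⟨h1, h2, h3, h4, _⟩
  rw [mem_coe, Fintype.mem_piFinset]
  intro i
  have := h1.monotone (Fin.le_last i)
  rw [mem_range]
  omega

theorem PatR_finite (q a k X Y : ℕ) : (PatR q a k X Y).Finite := by
  apply ((Fintype.piFinset fun _ : Fin (k + 2) => range (X + Y + 1)).finite_toSet).subset
  rintro u ⟨h1, h2, h3, h4, _⟩
  rw [mem_coe, Fintype.mem_piFinset]
  intro i
  have := h1.monotone (Fin.le_last i)
  rw [mem_range]
  omega

theorem boxes (k : ℕ) : ∃ (N E : ℕ), 0 < N ∧ 0 < E ∧ ∀ q a : ℕ, 1 ≤ q → Nat.Coprime a q →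
    ∀ X₁ Y₁ X Y : ℕ, 0 < X₁ → 0 < Y₁ → E * (N * X₁ + N) ≤ X →
    E * (96 * (N * X₁ + N + Y₁) + (N * X₁ + N)) ≤ Y →
    Y₁ * X₁ ^ k ≤ N ^ (k + 2) * (PatL q a k X Y).ncard ∧
    Y₁ * X₁ ^ k ≤ N ^ (k + 2) * (PatR q a k X Y).ncard := by
  classical
  obtain ⟨r, hr, hmain⟩ := cfg k
  set N := 96 * r with hN
  have hN0 : 0 < N := by omega
  refine ⟨N, N.factorial, hN0, Nat.factorial_pos _, ?_⟩
  intro q a hq haq X₁ Y₁ X Y hX₁ hY₁ hX hY
  set E := N.factorial with hE
  have hE0 : 0 < E := Nat.factorial_pos _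
  set B := N * X₁ + N with hB
  have hcfg := fun ω : (Fin 96 → Fin Y₁) × (Fin N → Fin X₁) =>
    hmain q a hq haq E B (fun l => (ω.1 l : ℕ)) (ff ω.2) hE0 dvd_rfl (fun x hx => ff_lt ω.2 hx)
      (fun x hx y hy _ h => ff_inj ω.2 hx hy h)
  set H : (Fin 96 → Fin Y₁) × (Fin N → Fin X₁) → ℕ → ℕ := fun ω =>
    hpos E B r (fun l => (ω.1 l : ℕ)) (ff ω.2) with hH
  -- size of the positions
  have hHle : ∀ ω, ∀ x < N, H ω x ≤ Y := by
    intro ω x hx
    refine le_trans ?_ hY
    simp only [hH, hpos]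
    apply Nat.mul_le_mul_left
    have h1 := base_le (B := B) (Y := Y₁) (w := fun l => (ω.1 l : ℕ)) (x / r)
      (fun l => (ω.1 l).2.le)
    have h2 := ff_lt ω.2 hx
    omega
  have hHdiff : ∀ ω, ∀ x < N, ∀ y < N, x / r = y / r → H ω y ≤ H ω x + X := by
    intro ω x hx y hy hxy
    simp only [hH, hpos]
    rw [hxy]
    have h2 := ff_lt ω.2 hy
    have h3 : E * (base B (fun l => (ω.1 l : ℕ)) (y / r) + ff ω.2 y) ≤
        E * (base B (fun l => (ω.1 l : ℕ)) (y / r) + ff ω.2 x) + E * B := by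
      rw [← Nat.mul_add]
      apply Nat.mul_le_mul_left
      omega
    exact h3.trans (Nat.add_le_add_left hX _)
  constructor
  · choose x₀ x g1 g2 g3 g4 g5 g6 g7 using fun ω => (hcfg ω).1
    have hmono : ∀ ω i, H ω (x ω 0) ≤ H ω (x ω i) := fun ω i => (g5 ω).monotone (Fin.zero_le i)
    have hinj : ∀ ω, Function.Injective (x ω) := fun ω i i' h => (g5 ω).injective (by
      simp only [h])
    set u : (Fin 96 → Fin Y₁) × (Fin N → Fin X₁) → Fin (k + 2) → ℕ := fun ω =>
      Fin.cons 0 (fun i => H ω (x ω i) - H ω (x₀ ω)) with hu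
    have hu1 : ∀ ω i, u ω (Fin.succ i) = H ω (x ω i) - H ω (x₀ ω) := by
      intro ω i
      simp only [hu, Fin.cons_succ]
    have huR : ∀ ω, u ω ∈ PatL q a k X Y := by
      intro ω
      have g6' : H ω (x₀ ω) < H ω (x ω 0) := g6 ω
      refine ⟨?_, ?_, ?_, ?_, ?_⟩
      · intro i i'
        refine Fin.cases ?_ (fun i => ?_) i
        · refine Fin.cases ?_ (fun i' => ?_) i'
          · intro h; exact absurd h (lt_irrefl _)
          · intro _
            rw [hu1]
            have := hmono ω i'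
            simp only [hu, Fin.cons_zero]
            omega
        · refine Fin.cases ?_ (fun i' => ?_) i'
          · intro h; exact absurd h (Fin.not_lt_zero _)
          · intro h
            rw [hu1, hu1]
            have h1 : H ω (x ω i) < H ω (x ω i') := g5 ω (Fin.succ_lt_succ_iff.1 h)
            have := hmono ω i
            omega
      · simp only [hu, Fin.cons_zero]
      · rw [← Fin.succ_zero_eq_one, hu1]
        have := hHle ω _ (g2 ω 0)
        omega
      · rw [← Fin.succ_zero_eq_one, ← Fin.succ_last, hu1, hu1]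
        have := hHdiff ω _ (g2 ω 0) _ (g2 ω (Fin.last k)) (g4 ω _).symm
        omega
      · simp only [hu]
        rw [image_cons]
        exact g7 ω
    have hfin := PatL_finite q a k X Y
    rw [Set.ncard_eq_toFinset_card _ hfin]
    refine count_gen k N Y₁ X₁ hY₁ hX₁ x₀ x u hfin.toFinset
      (fun ω => hfin.mem_toFinset.2 (huR ω)) g1 g2 hinj
      (fun _ x => if h : x 0 / r < 96 then ⟨x 0 / r, h⟩ else 0) ?_
    intro ω ω' e1 e2 e3 e4 e5
    have hlt : x ω 0 / r < 96 := (Nat.div_lt_iff_lt_mul hr).2 (g2 ω 0)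
    simp only [dif_pos hlt] at e4
    obtain ⟨d1, d2⟩ := determ (B := B) (r := r) hE0 (w := fun l => (ω.1 l : ℕ))
      (w' := fun l => (ω'.1 l : ℕ)) (f := ff ω.2) (f' := ff ω'.2) (a := x₀ ω) (b := x ω 0)
      (fun z => ∃ i : Fin k, x ω i.succ = z) ⟨x ω 0 / r, hlt⟩ rfl (g3 ω)
      (by
        rintro ⟨i, hi⟩
        have h1 := g4 ω i.succ
        rw [hi] at h1
        exact absurd h1 (g3 ω).ne)
      (by
        rintro ⟨i, hi⟩
        exact Fin.succ_ne_zero _ (hinj ω hi))
      (fun l hl => congrArg Fin.val (e4 l hl))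
      (by
        intro z hz
        push Not at hz
        unfold ff
        by_cases h : z < N
        · rw [dif_pos h, dif_pos h, e5 ⟨z, h⟩ hz]
        · rw [dif_neg h, dif_neg h])
      (by
        have key : ∀ i, hpos E B r (fun l => (ω.1 l : ℕ)) (ff ω.2) (x ω i) -
            hpos E B r (fun l => (ω.1 l : ℕ)) (ff ω.2) (x₀ ω) =
            hpos E B r (fun l => (ω'.1 l : ℕ)) (ff ω'.2) (x ω i) -
            hpos E B r (fun l => (ω'.1 l : ℕ)) (ff ω'.2) (x₀ ω) ∧
            hpos E B r (fun l => (ω.1 l : ℕ)) (ff ω.2) (x₀ ω) ≤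
            hpos E B r (fun l => (ω.1 l : ℕ)) (ff ω.2) (x ω i) ∧
            hpos E B r (fun l => (ω'.1 l : ℕ)) (ff ω'.2) (x₀ ω) ≤
            hpos E B r (fun l => (ω'.1 l : ℕ)) (ff ω'.2) (x ω i) := by
          intro i
          have h1 := hu1 ω i
          have h2 := hu1 ω' i
          rw [← e3, h1, ← e1, ← e2] at h2
          have h3 := hmono ω i
          have h4 := hmono ω' i
          have h5 := g6 ω
          have h6 := g6 ω'
          rw [← e2] at h4
          rw [← e1, ← e2] at h6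
          exact ⟨h2, h5.le.trans h3, h6.le.trans h4⟩
        rintro z (rfl | ⟨i, rfl⟩)
        · exact key 0
        · exact key i.succ)
    have d1' : ω.1 = ω'.1 := by
      funext l
      exact Fin.ext (congrFun d1 l)
    exact Prod.ext d1' (ff_eq d2)
  · choose x₀ x g1 g2 g3 g4 g5 g6 g7 using fun ω => (hcfg ω).2
    have hmono : ∀ ω i, H ω (x ω 0) ≤ H ω (x ω i) := fun ω i => (g5 ω).monotone (Fin.zero_le i)
    have hinj : ∀ ω, Function.Injective (x ω) := fun ω i i' h => (g5 ω).injective (by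
      simp only [h])
    set u : (Fin 96 → Fin Y₁) × (Fin N → Fin X₁) → Fin (k + 2) → ℕ := fun ω =>
      Fin.snoc (fun i => H ω (x ω i) - H ω (x ω 0)) (H ω (x₀ ω) - H ω (x ω 0)) with hu
    have hu1 : ∀ ω (i : Fin (k + 1)), u ω i.castSucc = H ω (x ω i) - H ω (x ω 0) := by
      intro ω i
      simp only [hu, Fin.snoc_castSucc]
    have hu2 : ∀ ω, u ω (Fin.last (k + 1)) = H ω (x₀ ω) - H ω (x ω 0) := by
      intro ω
      simp only [hu, Fin.snoc_last]
    have huR : ∀ ω, u ω ∈ PatR q a k X Y := by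
      intro ω
      have g6' : ∀ i, H ω (x ω i) < H ω (x₀ ω) := g6 ω
      refine ⟨?_, ?_, ?_, ?_, ?_⟩
      · intro i i'
        refine Fin.lastCases ?_ (fun i' => ?_) i'
        · refine Fin.lastCases ?_ (fun i => ?_) i
          · intro h; exact absurd h (lt_irrefl _)
          · intro _
            rw [hu1, hu2]
            have := hmono ω i
            have := g6' i
            omega
        · refine Fin.lastCases ?_ (fun i => ?_) i
          · intro h; exact absurd h (not_lt.2 (Fin.le_last _))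
          · intro h
            rw [hu1, hu1]
            have h1 : H ω (x ω i) < H ω (x ω i') := g5 ω (Fin.castSucc_lt_castSucc_iff.1 h)
            have := hmono ω i
            omega
      · have h1 : (0 : Fin (k + 2)) = (0 : Fin (k + 1)).castSucc := rfl
        rw [h1, hu1]
        omega
      · rw [hu1]
        have := hHdiff ω _ (g2 ω 0) _ (g2 ω (Fin.last k)) (g4 ω _).symm
        omega
      · rw [hu2]
        have := hHle ω _ (g1 ω)
        omega
      · simp only [hu]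
        rw [image_snoc]
        exact g7 ω
    have hfin := PatR_finite q a k X Y
    rw [Set.ncard_eq_toFinset_card _ hfin]
    refine count_gen k N Y₁ X₁ hY₁ hX₁ x₀ x u hfin.toFinset
      (fun ω => hfin.mem_toFinset.2 (huR ω)) g1 g2 hinj
      (fun x₀ _ => if h : x₀ / r < 96 then ⟨x₀ / r, h⟩ else 0) ?_
    intro ω ω' e1 e2 e3 e4 e5
    have hlt : x₀ ω / r < 96 := (Nat.div_lt_iff_lt_mul hr).2 (g1 ω)
    simp only [dif_pos hlt] at e4
    obtain ⟨d1, d2⟩ := determ (B := B) (r := r) hE0 (w := fun l => (ω.1 l : ℕ))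
      (w' := fun l => (ω'.1 l : ℕ)) (f := ff ω.2) (f' := ff ω'.2) (a := x ω 0) (b := x₀ ω)
      (fun z => ∃ i : Fin k, x ω i.succ = z) ⟨x₀ ω / r, hlt⟩ rfl (g3 ω)
      (by
        rintro ⟨i, hi⟩
        exact Fin.succ_ne_zero _ (hinj ω hi))
      (by
        rintro ⟨i, hi⟩
        have h1 := g4 ω i.succ
        rw [hi] at h1
        exact absurd h1 (g3 ω).ne')
      (fun l hl => congrArg Fin.val (e4 l hl))
      (by
        intro z hz
        push Not at hz
        unfold ff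
        by_cases h : z < N
        · rw [dif_pos h, dif_pos h, e5 ⟨z, h⟩ hz]
        · rw [dif_neg h, dif_neg h])
      (by
        rintro z (rfl | ⟨i, rfl⟩)
        · have h1 := hu2 ω
          have h2 := hu2 ω'
          rw [← e3, h1, ← e1, ← e2] at h2
          have h5 := g6 ω 0
          have h6 := g6 ω' 0
          rw [← e1, ← e2] at h6
          exact ⟨h2, h5.le, h6.le⟩
        · have h1 := hu1 ω i.succ
          have h2 := hu1 ω' i.succ
          rw [← e3, h1, ← e2] at h2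
          have h3 := hmono ω i.succ
          have h4 := hmono ω' i.succ
          rw [← e2] at h4
          exact ⟨h2, h3, h4⟩)
    have d1' : ω.1 = ω'.1 := by
      funext l
      exact Fin.ext (congrFun d1 l)
    exact Prod.ext d1' (ff_eq d2)

/-- a positive proportion of the patterns in every box with one long side -/
theorem box (k : ℕ) : ∃ c : ℝ, 0 < c ∧ ∃ X₀ : ℕ, ∀ q a : ℕ, 1 ≤ q → Nat.Coprime a q →
    ∀ X Y : ℕ, X₀ ≤ X → X ≤ Y → c * (Y * X ^ k) ≤ ((PatL q a k X Y).ncard : ℝ) ∧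
      c * (Y * X ^ k) ≤ ((PatR q a k X Y).ncard : ℝ) := by
  obtain ⟨N, E, hN, hE, hmain⟩ := boxes k
  have hNE : 0 < N * E := Nat.mul_pos hN hE
  refine ⟨1 / ((400 * E) * (800 * (N * E)) ^ k * N ^ (k + 2)), by positivity, 800 * (N * E), ?_⟩
  intro q a hq haq X Y hX hXY
  set X₁ := X / (400 * (N * E)) with hX₁
  set Y₁ := Y / (200 * E) with hY₁
  have hX₁0 : 2 ≤ X₁ := by
    rw [hX₁, Nat.le_div_iff_mul_le (by omega)]
    omega
  have hE1 : E ≤ N * E := Nat.le_mul_of_pos_left E hN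
  have hY₁0 : 2 ≤ Y₁ := by
    rw [hY₁, Nat.le_div_iff_mul_le (by omega)]
    omega
  have hXm : X₁ * (400 * (N * E)) ≤ X := Nat.div_mul_le_self _ _
  have hYm : Y₁ * (200 * E) ≤ Y := Nat.div_mul_le_self _ _
  have hXu : X < (X₁ + 1) * (400 * (N * E)) := by
    have := Nat.lt_mul_div_succ X (show 0 < 400 * (N * E) by omega)
    rw [mul_comm] at this
    exact this
  have hYu : Y < (Y₁ + 1) * (200 * E) := by
    have := Nat.lt_mul_div_succ Y (show 0 < 200 * E by omega)
    rw [mul_comm] at this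
    exact this
  have e1 : 200 * (E * (N * X₁ + N)) ≤ X := by
    have h1 : 200 * (E * (N * X₁ + N)) = 200 * (X₁ * (N * E)) + 200 * (N * E) := by ring
    have h2 : X₁ * (400 * (N * E)) = 400 * (X₁ * (N * E)) := by ring
    rw [h2] at hXm
    have h3 : 2 * (N * E) ≤ X₁ * (N * E) := Nat.mul_le_mul_right _ hX₁0
    omega
  have e2 : E * (96 * (N * X₁ + N + Y₁) + (N * X₁ + N)) ≤ Y := by
    have h1 : E * (96 * (N * X₁ + N + Y₁) + (N * X₁ + N)) = 97 * (E * (N * X₁ + N)) + 96 * (Y₁ * E) := by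
      ring
    have h2 : Y₁ * (200 * E) = 200 * (Y₁ * E) := by ring
    rw [h2] at hYm
    omega
  obtain ⟨hL, hR⟩ := hmain q a hq haq X₁ Y₁ X Y (by omega) (by omega) (by omega) e2
  -- real inequalities
  have hNR : (0 : ℝ) < N := by exact_mod_cast hN
  have hER : (0 : ℝ) < E := by exact_mod_cast hE
  have f1 : (X : ℝ) / (800 * (N * E)) ≤ X₁ := by
    rw [div_le_iff₀ (by positivity)]
    have h1 : (X : ℝ) ≤ (X₁ + 1) * (400 * (N * E)) := by exact_mod_cast hXu.le
    have h2 : (2 : ℝ) ≤ X₁ := by exact_mod_cast hX₁0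
    have h3 : (0 : ℝ) < N * E := by positivity
    nlinarith
  have f2 : (Y : ℝ) / (400 * E) ≤ Y₁ := by
    rw [div_le_iff₀ (by positivity)]
    have h1 : (Y : ℝ) ≤ (Y₁ + 1) * (200 * E) := by exact_mod_cast hYu.le
    have h2 : (2 : ℝ) ≤ Y₁ := by exact_mod_cast hY₁0
    nlinarith
  have f3 : (Y : ℝ) / (400 * E) * ((X : ℝ) / (800 * (N * E))) ^ k ≤ Y₁ * (X₁ : ℝ) ^ k := by
    gcongr
  have f4 : 1 / ((400 * (E : ℝ)) * (800 * (N * E)) ^ k * N ^ (k + 2)) * (Y * X ^ k) =
      (Y : ℝ) / (400 * E) * ((X : ℝ) / (800 * (N * E))) ^ k / N ^ (k + 2) := by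
    rw [div_pow]
    field_simp
  rw [f4]
  have hNk : (0 : ℝ) < (N : ℝ) ^ (k + 2) := by positivity
  constructor
  · rw [div_le_iff₀ hNk, mul_comm (((PatL q a k X Y).ncard : ℝ))]
    refine f3.trans ?_
    exact_mod_cast hL
  · rw [div_le_iff₀ hNk, mul_comm (((PatR q a k X Y).ncard : ℝ))]
    refine f3.trans ?_
    exact_mod_cast hR

end Pool.Agent.E8helper66.CP
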