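import Mathlib
import Pool.Agent.E8helper66.CP.Box
import Pool.Agent.TH402.FB.Gaps

/-! A prescribed gap next to a positive proportion of the gaps. -/

set_option autoImplicit false

namespace Pool.Agent.E8helper66.CP

open Finset Filter

/-- Ramsey's theorem for two colours -/
theorem ramsey (P : ℕ → ℕ → Prop) : ∀ (n s t : ℕ), s + t ≤ n → ∀ A : Finset ℕ, 2 ^ n ≤ A.card →
    (∃ S ⊆ A, S.card = s ∧ ∀ x ∈ S, ∀ y ∈ S, x < y → P x y) ∨
    (∃ S ⊆ A, S.card = t ∧ ∀ x ∈ S, ∀ y ∈ S, x < y → ¬ P x y) := by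
  classical
  intro n
  induction n with
  | zero =>
    intro s t hst A _
    left
    exact ⟨∅, empty_subset _, by rw [card_empty]; omega, by simp⟩
  | succ n ih =>
    intro s t hst A hA
    rcases Nat.eq_zero_or_pos s with rfl | hs
    · left
      exact ⟨∅, empty_subset _, card_empty, by simp⟩
    rcases Nat.eq_zero_or_pos t with rfl | ht
    · right
      exact ⟨∅, empty_subset _, card_empty, by simp⟩
    have hne : A.Nonempty := card_pos.1 (lt_of_lt_of_le (by positivity) hA)
    obtain ⟨a, ha, hmin⟩ := exists_min_image A id hne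
    simp only [id] at hmin
    have hcard : ((A.erase a).filter (fun y => P a y)).card +
        ((A.erase a).filter (fun y => ¬ P a y)).card = A.card - 1 := by
      rw [card_filter_add_card_filter_not, card_erase_of_mem ha]
    have hpow : 2 ^ (n + 1) = 2 * 2 ^ n := by ring
    have hlt : ∀ y ∈ A.erase a, a < y := fun y hy =>
      lt_of_le_of_ne (hmin y (mem_of_mem_erase hy)) (ne_of_mem_erase hy).symm
    rcases le_or_gt (2 ^ n) ((A.erase a).filter (fun y => P a y)).card with h | h
    · rcases ih (s - 1) t (by omega) _ h with ⟨S, hS, hSc, hSP⟩ | ⟨S, hS, hSc, hSP⟩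
      · left
        have haS : a ∉ S := fun h1 => by
          have := (mem_filter.1 (hS h1)).1
          exact (ne_of_mem_erase this) rfl
        refine ⟨insert a S, ?_, ?_, ?_⟩
        · intro y hy
          rcases mem_insert.1 hy with rfl | hy
          · exact ha
          · exact mem_of_mem_erase (mem_filter.1 (hS hy)).1
        · rw [card_insert_of_notMem haS, hSc]; omega
        · intro x hx y hy hxy
          rcases mem_insert.1 hx with hxa | hx'
          · rcases mem_insert.1 hy with hya | hy'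
            · rw [hxa, hya] at hxy
              exact absurd hxy (lt_irrefl _)
            · rw [hxa]
              exact (mem_filter.1 (hS hy')).2
          · rcases mem_insert.1 hy with hya | hy'
            · exact absurd (hlt x (mem_filter.1 (hS hx')).1) (by omega)
            · exact hSP x hx' y hy' hxy
      · right
        exact ⟨S, fun y hy => mem_of_mem_erase (mem_filter.1 (hS hy)).1, hSc, hSP⟩
    · have h' : 2 ^ n ≤ ((A.erase a).filter (fun y => ¬ P a y)).card := by omega
      rcases ih s (t - 1) (by omega) _ h' with ⟨S, hS, hSc, hSP⟩ | ⟨S, hS, hSc, hSP⟩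
      · left
        exact ⟨S, fun y hy => mem_of_mem_erase (mem_filter.1 (hS hy)).1, hSc, hSP⟩
      · right
        have haS : a ∉ S := fun h1 => by
          have := (mem_filter.1 (hS h1)).1
          exact (ne_of_mem_erase this) rfl
        refine ⟨insert a S, ?_, ?_, ?_⟩
        · intro y hy
          rcases mem_insert.1 hy with rfl | hy
          · exact ha
          · exact mem_of_mem_erase (mem_filter.1 (hS hy)).1
        · rw [card_insert_of_notMem haS, hSc]; omega
        · intro x hx y hy hxy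
          rcases mem_insert.1 hx with hxa | hx'
          · rcases mem_insert.1 hy with hya | hy'
            · rw [hxa, hya] at hxy
              exact absurd hxy (lt_irrefl _)
            · rw [hxa]
              exact (mem_filter.1 (hS hy')).2
          · rcases mem_insert.1 hy with hya | hy'
            · exact absurd (hlt x (mem_filter.1 (hS hx')).1) (by omega)
            · exact hSP x hx' y hy' hxy

/-- the gaps `g` in front of the gap `d` have upper density at least `c` -/
def DenseL (c : ℝ) (q a d : ℕ) : Prop := ∃ᶠ Y : ℕ in atTop,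
  c * Y ≤ ({g : ℕ | 0 < g ∧ g ≤ Y ∧ Realised q a {0, g, g + d}}.ncard : ℝ)

/-- the gaps `g` behind the gap `d` have upper density at least `c` -/
def DenseR (c : ℝ) (q a d : ℕ) : Prop := ∃ᶠ Y : ℕ in atTop,
  c * Y ≤ ({g : ℕ | 0 < g ∧ g ≤ Y ∧ Realised q a {0, d, d + g}}.ncard : ℝ)

theorem image3 (u : Fin 3 → ℕ) : (univ : Finset (Fin 3)).image u = {u 0, u 1, u 2} := by
  ext y
  simp only [mem_image, mem_univ, true_and, mem_insert, mem_singleton]
  constructor
  · rintro ⟨i, rfl⟩
    fin_cases i <;> simp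
  · rintro (rfl | rfl | rfl)
    · exact ⟨0, rfl⟩
    · exact ⟨1, rfl⟩
    · exact ⟨2, rfl⟩

/-- patterns with one of finitely many short gaps -/
theorem pairs_count : ∃ (r N E : ℕ), 1 ≤ r ∧ 0 < N ∧ 0 < E ∧ ∀ q a : ℕ, 1 ≤ q → Nat.Coprime a q →
    ∀ σ : ℕ → ℕ, (∀ i < r, ∀ j < r, σ i = σ j → i = j) → ∀ B, (∀ i < r, σ i < B) →
    ∀ Y₁, 0 < Y₁ →
    (∃ i < r, ∃ j < r, σ i < σ j ∧ Y₁ ≤ N ^ 3 * r ^ 2 * {g : ℕ | 0 < g ∧
      g ≤ E * (96 * (B + Y₁) + B) ∧ Realised q a {0, g, g + E * (σ j - σ i)}}.ncard) ∧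
    (∃ i < r, ∃ j < r, σ i < σ j ∧ Y₁ ≤ N ^ 3 * r ^ 2 * {g : ℕ | 0 < g ∧
      g ≤ E * (96 * (B + Y₁) + B) ∧ Realised q a {0, E * (σ j - σ i), E * (σ j - σ i) + g}}.ncard) := by
  classical
  obtain ⟨r, hr, hmain⟩ := cfg 1
  set N := 96 * r with hN
  have hN0 : 0 < N := by omega
  obtain ⟨E, hE⟩ : ∃ E, E = N.factorial := ⟨_, rfl⟩
  have hE0 : 0 < E := by rw [hE]; exact Nat.factorial_pos _
  refine ⟨r, N, E, hr, hN0, hE0, ?_⟩
  intro q a hq haq σ hσ B hB Y₁ hY₁
  set f : ℕ → ℕ := fun z => σ (z % r) with hf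
  have hmod : ∀ z, z % r < r := fun z => Nat.mod_lt _ hr
  have hfB : ∀ x < 96 * r, f x < B := fun x _ => hB _ (hmod x)
  have hfinj : ∀ x < 96 * r, ∀ y < 96 * r, x / r = y / r → f x = f y → x = y := by
    intro x _ y _ h1 h2
    have h3 := hσ _ (hmod x) _ (hmod y) h2
    rw [← Nat.div_add_mod x r, ← Nat.div_add_mod y r, h1, h3]
  have hcfg := fun ω : (Fin 96 → Fin Y₁) × (Fin N → Fin 1) =>
    hmain q a hq haq E B (fun l => (ω.1 l : ℕ)) f hE0 (by rw [hE]) hfB hfinj
  set H : (Fin 96 → Fin Y₁) × (Fin N → Fin 1) → ℕ → ℕ := fun ω =>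
    hpos E B r (fun l => (ω.1 l : ℕ)) f with hH
  set Y := E * (96 * (B + Y₁) + B) with hY
  have hHle : ∀ ω, ∀ x < N, H ω x ≤ Y := by
    intro ω x hx
    simp only [hH, hpos, hY]
    apply Nat.mul_le_mul_left
    have h1 := base_le (B := B) (Y := Y₁) (w := fun l => (ω.1 l : ℕ)) (x / r)
      (fun l => (ω.1 l).2.le)
    have h2 := hfB x hx
    omega
  -- two positions of one cluster
  have hdiff : ∀ ω x y, x / r = y / r → H ω x < H ω y →
      σ (x % r) < σ (y % r) ∧ H ω y = H ω x + E * (σ (y % r) - σ (x % r)) := by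
    intro ω x y hxy hlt
    simp only [hH, hpos, hf] at hlt ⊢
    rw [hxy] at hlt ⊢
    have h1 := Nat.lt_of_mul_lt_mul_left hlt
    have h2 : σ (x % r) < σ (y % r) := by omega
    refine ⟨h2, ?_⟩
    have h3 : base B (fun l => (ω.1 l : ℕ)) (y / r) + σ (y % r) =
        base B (fun l => (ω.1 l : ℕ)) (y / r) + σ (x % r) + (σ (y % r) - σ (x % r)) := by omega
    rw [h3, Nat.mul_add E (base B (fun l => (ω.1 l : ℕ)) (y / r) + σ (x % r))]
  -- pigeonhole over the differences
  have pig : ∀ (F : ℕ × ℕ → Set ℕ) (ψ : ℕ × ℕ → ℕ → (Fin 3 → ℕ)) (R : Finset (Fin 3 → ℕ)),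
      (∀ z, (F z).Finite) →
      (∀ u ∈ R, ∃ i < r, ∃ j < r, σ i < σ j ∧ ∃ g ∈ F (i, j), u = ψ (i, j) g) →
      Y₁ * 1 ^ 1 ≤ N ^ (1 + 2) * R.card →
      ∃ i < r, ∃ j < r, σ i < σ j ∧ Y₁ ≤ N ^ 3 * r ^ 2 * (F (i, j)).ncard := by
    intro F ψ R hF hR hRY
    set Z := ((range r) ×ˢ (range r)).filter (fun z => σ z.1 < σ z.2) with hZ
    have h1 : R ⊆ Z.biUnion (fun z => (hF z).toFinset.image (ψ z)) := by
      intro u hu
      obtain ⟨i, hi, j, hj, hij, g, hg, rfl⟩ := hR u hu
      rw [mem_biUnion]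
      refine ⟨(i, j), ?_, mem_image_of_mem _ ((hF (i, j)).mem_toFinset.2 hg)⟩
      rw [hZ, mem_filter, mem_product, mem_range, mem_range]
      exact ⟨⟨hi, hj⟩, hij⟩
    have h2 : R.card ≤ ∑ z ∈ Z, (F z).ncard := by
      refine (card_le_card h1).trans (card_biUnion_le.trans (sum_le_sum fun z _ => ?_))
      refine card_image_le.trans (le_of_eq ?_)
      rw [Set.ncard_eq_toFinset_card _ (hF z)]
    have hZne : Z.Nonempty := by
      by_contra h
      rw [not_nonempty_iff_eq_empty] at h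
      rw [h, sum_empty] at h2
      have : R.card = 0 := by omega
      rw [this] at hRY
      omega
    obtain ⟨z, hz, hmax⟩ := exists_max_image Z (fun z => (F z).ncard) hZne
    have h3 : ∑ z ∈ Z, (F z).ncard ≤ Z.card * (F z).ncard := by
      rw [← smul_eq_mul]
      exact sum_le_card_nsmul _ _ _ hmax
    have h4 : Z.card ≤ r ^ 2 := by
      refine (card_filter_le _ _).trans (le_of_eq ?_)
      rw [card_product, card_range]; ring
    have hz' := hz
    rw [hZ, mem_filter, mem_product, mem_range, mem_range] at hz'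
    refine ⟨z.1, hz'.1.1, z.2, hz'.1.2, hz'.2, ?_⟩
    calc Y₁ = Y₁ * 1 ^ 1 := by ring
      _ ≤ N ^ (1 + 2) * R.card := hRY
      _ ≤ N ^ (1 + 2) * (r ^ 2 * (F z).ncard) :=
          Nat.mul_le_mul_left _ (h2.trans (h3.trans (Nat.mul_le_mul_right _ h4)))
      _ = N ^ 3 * r ^ 2 * (F (z.1, z.2)).ncard := by ring
  have hfinY : ∀ (P : ℕ → Prop), {g : ℕ | 0 < g ∧ g ≤ Y ∧ P g}.Finite := fun P =>
    (Set.finite_Iic Y).subset fun g hg => hg.2.1
  constructor
  · choose x₀ x g1 g2 g3 g4 g5 g6 g7 using fun ω => (hcfg ω).1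
    have hinj : ∀ ω, Function.Injective (x ω) := fun ω i i' h => (g5 ω).injective (by
      simp only [h])
    have hsucc : (Fin.succ (0 : Fin 1)) = (1 : Fin 2) := rfl
    have h01 : ∀ ω, H ω (x ω 0) < H ω (x ω 1) := fun ω => g5 ω (by decide)
    set u : (Fin 96 → Fin Y₁) × (Fin N → Fin 1) → Fin 3 → ℕ := fun ω =>
      ![0, H ω (x ω 0) - H ω (x₀ ω), H ω (x ω 1) - H ω (x₀ ω)] with hu
    refine pig (fun z => {g : ℕ | 0 < g ∧ g ≤ Y ∧ Realised q a {0, g, g + E * (σ z.2 - σ z.1)}})
      (fun z g => ![0, g, g + E * (σ z.2 - σ z.1)]) (univ.image u) (fun z => hfinY _) ?_ ?_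
    · intro v hv
      obtain ⟨ω, _, rfl⟩ := mem_image.1 hv
      have e0 : H ω (x₀ ω) < H ω (x ω 0) := g6 ω
      obtain ⟨e1, e2⟩ := hdiff ω (x ω 0) (x ω 1) (g4 ω 1).symm (h01 ω)
      have e3 : H ω (x ω 1) - H ω (x₀ ω) = H ω (x ω 0) - H ω (x₀ ω) +
          E * (σ (x ω 1 % r) - σ (x ω 0 % r)) := by omega
      refine ⟨x ω 0 % r, hmod _, x ω 1 % r, hmod _, e1, H ω (x ω 0) - H ω (x₀ ω), ⟨by omega, ?_, ?_⟩, ?_⟩
      · have := hHle ω _ (g2 ω 0)
        omega
      · simp only
        rw [← e3]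
        have h7 := g7 ω
        have e4 : (univ : Finset (Fin (1 + 1))).image (fun i => hpos E B r (fun l => (ω.1 l : ℕ)) f (x ω i) -
            hpos E B r (fun l => (ω.1 l : ℕ)) f (x₀ ω)) =
            {H ω (x ω 0) - H ω (x₀ ω), H ω (x ω 1) - H ω (x₀ ω)} := by
          ext y
          simp only [mem_image, mem_univ, true_and, mem_insert, mem_singleton]
          constructor
          · rintro ⟨i, rfl⟩
            fin_cases i <;> simp [hH]
          · rintro (rfl | rfl)
            · exact ⟨0, rfl⟩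
            · exact ⟨1, rfl⟩
        rw [e4] at h7
        exact h7
      · simp only [hu]
        rw [e3]
    · refine count_gen 1 N Y₁ 1 hY₁ one_pos x₀ x u (univ.image u)
        (fun ω => mem_image_of_mem u (mem_univ ω)) g1 g2 hinj
        (fun _ x => if h : x 0 / r < 96 then ⟨x 0 / r, h⟩ else 0) ?_
      intro ω ω' e1 e2 e3 e4 _
      have hlt : x ω 0 / r < 96 := (Nat.div_lt_iff_lt_mul hr).2 (g2 ω 0)
      simp only [dif_pos hlt] at e4
      obtain ⟨d1, _⟩ := determ (B := B) (r := r) hE0 (w := fun l => (ω.1 l : ℕ))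
        (w' := fun l => (ω'.1 l : ℕ)) (f := f) (f' := f) (a := x₀ ω) (b := x ω 0)
        (fun z => x ω 1 = z) ⟨x ω 0 / r, hlt⟩ rfl (g3 ω)
        (by
          intro hi
          have h1 := g4 ω 1
          rw [hi] at h1
          exact absurd h1 (g3 ω).ne)
        (by
          intro hi
          exact absurd (hinj ω hi) (by decide))
        (fun l hl => congrArg Fin.val (e4 l hl))
        (fun _ _ => rfl)
        (by
          have u1 := congrFun e3 1
          have u2 := congrFun e3 2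
          have h5 : H ω (x₀ ω) < H ω (x ω 0) := g6 ω
          have h6 : H ω' (x₀ ω') < H ω' (x ω' 0) := g6 ω'
          have h7 := h01 ω
          have h8 := h01 ω'
          rw [← e1, ← e2] at h6
          rw [← e2] at h8
          have u1' : H ω (x ω 0) - H ω (x₀ ω) = H ω' (x ω 0) - H ω' (x₀ ω) := by
            have : H ω (x ω 0) - H ω (x₀ ω) = H ω' (x ω' 0) - H ω' (x₀ ω') := u1
            rw [this, e1, e2]
          have u2' : H ω (x ω 1) - H ω (x₀ ω) = H ω' (x ω 1) - H ω' (x₀ ω) := by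
            have : H ω (x ω 1) - H ω (x₀ ω) = H ω' (x ω' 1) - H ω' (x₀ ω') := u2
            rw [this, e1, e2]
          rintro z (rfl | rfl)
          · exact ⟨u1', h5.le, h6.le⟩
          · exact ⟨u2', (h5.trans h7).le, (h6.trans h8).le⟩)
      have d1' : ω.1 = ω'.1 := by
        funext l
        exact Fin.ext (congrFun d1 l)
      exact Prod.ext d1' (Subsingleton.elim _ _)
  · choose x₀ x g1 g2 g3 g4 g5 g6 g7 using fun ω => (hcfg ω).2
    have hinj : ∀ ω, Function.Injective (x ω) := fun ω i i' h => (g5 ω).injective (by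
      simp only [h])
    have h01 : ∀ ω, H ω (x ω 0) < H ω (x ω 1) := fun ω => g5 ω (by decide)
    set u : (Fin 96 → Fin Y₁) × (Fin N → Fin 1) → Fin 3 → ℕ := fun ω =>
      ![0, H ω (x ω 1) - H ω (x ω 0), H ω (x₀ ω) - H ω (x ω 0)] with hu
    refine pig (fun z => {g : ℕ | 0 < g ∧ g ≤ Y ∧
        Realised q a {0, E * (σ z.2 - σ z.1), E * (σ z.2 - σ z.1) + g}})
      (fun z g => ![0, E * (σ z.2 - σ z.1), E * (σ z.2 - σ z.1) + g]) (univ.image u)
      (fun z => hfinY _) ?_ ?_
    · intro v hv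
      obtain ⟨ω, _, rfl⟩ := mem_image.1 hv
      have e0 : H ω (x ω 1) < H ω (x₀ ω) := g6 ω 1
      obtain ⟨e1, e2⟩ := hdiff ω (x ω 0) (x ω 1) (g4 ω 1).symm (h01 ω)
      have e3 : H ω (x ω 1) - H ω (x ω 0) = E * (σ (x ω 1 % r) - σ (x ω 0 % r)) := by omega
      have e3' : H ω (x₀ ω) - H ω (x ω 0) = E * (σ (x ω 1 % r) - σ (x ω 0 % r)) +
          (H ω (x₀ ω) - H ω (x ω 1)) := by omega
      refine ⟨x ω 0 % r, hmod _, x ω 1 % r, hmod _, e1, H ω (x₀ ω) - H ω (x ω 1), ⟨by omega, ?_, ?_⟩, ?_⟩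
      · have := hHle ω _ (g1 ω)
        omega
      · simp only
        rw [← e3', ← e3]
        have h7 := g7 ω
        have e4 : insert (hpos E B r (fun l => (ω.1 l : ℕ)) f (x₀ ω) -
            hpos E B r (fun l => (ω.1 l : ℕ)) f (x ω 0)) ((univ : Finset (Fin (1 + 1))).image
            (fun i => hpos E B r (fun l => (ω.1 l : ℕ)) f (x ω i) -
            hpos E B r (fun l => (ω.1 l : ℕ)) f (x ω 0))) =
            {0, H ω (x ω 1) - H ω (x ω 0), H ω (x₀ ω) - H ω (x ω 0)} := by
          ext y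
          simp only [mem_image, mem_univ, true_and, mem_insert, mem_singleton]
          constructor
          · rintro (rfl | ⟨i, rfl⟩)
            · right; right; rfl
            · fin_cases i <;> simp [hH]
          · rintro (rfl | rfl | rfl)
            · right; exact ⟨0, by simp⟩
            · right; exact ⟨1, rfl⟩
            · left; rfl
        rw [e4] at h7
        exact h7
      · simp only [hu]
        rw [e3', e3]
    · refine count_gen 1 N Y₁ 1 hY₁ one_pos x₀ x u (univ.image u)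
        (fun ω => mem_image_of_mem u (mem_univ ω)) g1 g2 hinj
        (fun x₀ _ => if h : x₀ / r < 96 then ⟨x₀ / r, h⟩ else 0) ?_
      intro ω ω' e1 e2 e3 e4 _
      have hlt : x₀ ω / r < 96 := (Nat.div_lt_iff_lt_mul hr).2 (g1 ω)
      simp only [dif_pos hlt] at e4
      obtain ⟨d1, _⟩ := determ (B := B) (r := r) hE0 (w := fun l => (ω.1 l : ℕ))
        (w' := fun l => (ω'.1 l : ℕ)) (f := f) (f' := f) (a := x ω 0) (b := x₀ ω)
        (fun z => x ω 1 = z) ⟨x₀ ω / r, hlt⟩ rfl (g3 ω)
        (by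
          intro hi
          exact absurd (hinj ω hi) (by decide))
        (by
          intro hi
          have h1 := g4 ω 1
          rw [hi] at h1
          exact absurd h1 (g3 ω).ne')
        (fun l hl => congrArg Fin.val (e4 l hl))
        (fun _ _ => rfl)
        (by
          have u1 := congrFun e3 1
          have u2 := congrFun e3 2
          have h5 : H ω (x ω 1) < H ω (x₀ ω) := g6 ω 1
          have h6 : H ω' (x ω' 1) < H ω' (x₀ ω') := g6 ω' 1
          have h7 := h01 ω
          have h8 := h01 ω'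
          rw [← e1, ← e2] at h6
          rw [← e2] at h8
          have u1' : H ω (x ω 1) - H ω (x ω 0) = H ω' (x ω 1) - H ω' (x ω 0) := by
            have : H ω (x ω 1) - H ω (x ω 0) = H ω' (x ω' 1) - H ω' (x ω' 0) := u1
            rw [this, e2]
          have u2' : H ω (x₀ ω) - H ω (x ω 0) = H ω' (x₀ ω) - H ω' (x ω 0) := by
            have : H ω (x₀ ω) - H ω (x ω 0) = H ω' (x₀ ω') - H ω' (x ω' 0) := u2
            rw [this, e1, e2]
          rintro z (rfl | rfl)
          · exact ⟨u2', (h7.trans h5).le, (h8.trans h6).le⟩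
          · exact ⟨u1', h7.le, h8.le⟩)
      have d1' : ω.1 = ω'.1 := by
        funext l
        exact Fin.ext (congrFun d1 l)
      exact Prod.ext d1' (Subsingleton.elim _ _)

end Pool.Agent.E8helper66.CP
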