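import Mathlib
import Pool.Agent.E8helper66.CP.Bohr

/-! A prescribed gap next to a positive proportion of the gaps: the Bohr structure. -/

set_option autoImplicit false

namespace Pool.Agent.E8helper66.CP

open Finset Filter

theorem dense_pair : ∃ (r E : ℕ) (c : ℝ), 1 ≤ r ∧ 0 < E ∧ 0 < c ∧ ∀ q a : ℕ, 1 ≤ q →
    Nat.Coprime a q → ∀ S : Finset ℕ, S.card = r →
    (∃ s ∈ S, ∃ s' ∈ S, s < s' ∧ DenseL c q a (E * (s' - s))) ∧
    (∃ s ∈ S, ∃ s' ∈ S, s < s' ∧ DenseR c q a (E * (s' - s))) := by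
  classical
  obtain ⟨r, N, E, hr, hN, hE, hmain⟩ := pairs_count
  have hrR : (0 : ℝ) < r := by exact_mod_cast hr
  have hNR : (0 : ℝ) < N := by exact_mod_cast hN
  have hER : (0 : ℝ) < E := by exact_mod_cast hE
  obtain ⟨c, hc⟩ : ∃ c : ℝ, c = 1 / (193 * E * (N ^ 3 * r ^ 2)) := ⟨_, rfl⟩
  have hc0 : 0 < c := by rw [hc]; positivity
  refine ⟨r, E, c, hr, hE, hc0, ?_⟩
  intro q a hq haq S hS
  set σ : ℕ → ℕ := fun i => if h : i < r then S.orderEmbOfFin hS ⟨i, h⟩ else 0 with hσ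
  have hσS : ∀ i < r, σ i ∈ S := by
    intro i hi
    simp only [hσ, dif_pos hi]
    exact S.orderEmbOfFin_mem hS _
  have hσinj : ∀ i < r, ∀ j < r, σ i = σ j → i = j := by
    intro i hi j hj h
    simp only [hσ, dif_pos hi, dif_pos hj] at h
    have := (S.orderEmbOfFin hS).injective h
    exact Fin.mk.inj_iff.1 this
  set B := S.sup id + 1 with hB
  have hσB : ∀ i < r, σ i < B := by
    intro i hi
    have : σ i ≤ S.sup id := le_sup (f := id) (hσS i hi)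
    omega
  have hcount := hmain q a hq haq σ hσinj B hσB
  -- the general argument
  have gen : ∀ F : ℕ → ℕ → Set ℕ,
      (∀ Y₁, 0 < Y₁ → ∃ i < r, ∃ j < r, σ i < σ j ∧
        Y₁ ≤ N ^ 3 * r ^ 2 * (F (E * (σ j - σ i)) (E * (96 * (B + Y₁) + B))).ncard) →
      ∃ s ∈ S, ∃ s' ∈ S, s < s' ∧ ∃ᶠ Y : ℕ in atTop, c * Y ≤ ((F (E * (s' - s)) Y).ncard : ℝ) := by
    intro F hF
    by_contra hcon
    push Not at hcon
    have h1 : ∀ᶠ Y : ℕ in atTop, ∀ s ∈ S, ∀ s' ∈ S, s < s' →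
        ((F (E * (s' - s)) Y).ncard : ℝ) < c * Y := by
      rw [eventually_all_finset]
      intro s hs
      rw [eventually_all_finset]
      intro s' hs'
      by_cases hlt : s < s'
      · have h2 := hcon s hs s' hs' hlt
        refine h2.mono fun Y hY _ => ?_
        exact hY
      · exact Eventually.of_forall fun Y h => absurd h hlt
    obtain ⟨Y₂, hY₂⟩ := eventually_atTop.1 h1
    set Y₁ := max (max Y₂ B) 1 with hY₁
    have hY₁0 : 0 < Y₁ := lt_of_lt_of_le one_pos (le_max_right _ _)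
    have hY₁2 : Y₂ ≤ Y₁ := (le_max_left _ _).trans (le_max_left _ _)
    have hY₁B : B ≤ Y₁ := (le_max_right _ _).trans (le_max_left _ _)
    obtain ⟨i, hi, j, hj, hij, h2⟩ := hF Y₁ hY₁0
    have h3 : Y₁ ≤ E * (96 * (B + Y₁) + B) := by
      calc Y₁ ≤ 1 * (96 * (B + Y₁) + B) := by omega
        _ ≤ _ := Nat.mul_le_mul_right _ hE
    have h4 := hY₂ _ (hY₁2.trans h3) _ (hσS i hi) _ (hσS j hj) hij
    have h5 : E * (96 * (B + Y₁) + B) ≤ E * (193 * Y₁) := Nat.mul_le_mul_left _ (by omega)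
    have h5' : ((E * (96 * (B + Y₁) + B) : ℕ) : ℝ) ≤ E * (193 * Y₁) := by exact_mod_cast h5
    have h2' : (Y₁ : ℝ) ≤ N ^ 3 * r ^ 2 *
        ((F (E * (σ j - σ i)) (E * (96 * (B + Y₁) + B))).ncard : ℝ) := by exact_mod_cast h2
    have h6 : c * ((E * (96 * (B + Y₁) + B) : ℕ) : ℝ) ≤ c * (E * (193 * Y₁)) :=
      mul_le_mul_of_nonneg_left h5' hc0.le
    have h7 : ((F (E * (σ j - σ i)) (E * (96 * (B + Y₁) + B))).ncard : ℝ) < c * (E * (193 * Y₁)) :=
      h4.trans_le h6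
    have h8 : (N : ℝ) ^ 3 * r ^ 2 * (c * (E * (193 * Y₁))) = Y₁ := by
      rw [hc]
      field_simp
    have h9 : (N : ℝ) ^ 3 * r ^ 2 * ((F (E * (σ j - σ i)) (E * (96 * (B + Y₁) + B))).ncard : ℝ) <
        N ^ 3 * r ^ 2 * (c * (E * (193 * Y₁))) := mul_lt_mul_of_pos_left h7 (by positivity)
    linarith
  constructor
  · exact gen (fun d Y => {g : ℕ | 0 < g ∧ g ≤ Y ∧ Realised q a {0, g, g + d}})
      (fun Y₁ h => (hcount Y₁ h).1)
  · exact gen (fun d Y => {g : ℕ | 0 < g ∧ g ≤ Y ∧ Realised q a {0, d, d + g}})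
      (fun Y₁ h => (hcount Y₁ h).2)

open Pool.Agent.TH402.FB Pool.Agent.H947R3.GM Pool.Agent.W59.GB Pool.Agent.W142.TF Pool.Agent.W27.FB in
theorem bohr : ∃ c : ℝ, 0 < c ∧ ∀ q a : ℕ, 1 ≤ q → Nat.Coprime a q →
    ∃ (Θ : Finset ℝ) (ρ : ℝ), 0 < ρ ∧
    (∃ L : ℕ, ∀ u : ℕ, ∃ d : ℕ, u < d ∧ d ≤ u + L ∧
      ∀ θ ∈ Θ, |(d : ℝ) * θ - round ((d : ℝ) * θ)| < ρ) ∧
    ∀ ε : ℝ, 0 < ε → ∃ L₀ : ℕ, ∀ L : ℕ, L₀ ≤ L → ∀ u : ℕ,
      ({d : ℕ | u < d ∧ d ≤ u + L ∧ (∀ θ ∈ Θ, |(d : ℝ) * θ - round ((d : ℝ) * θ)| < ρ) ∧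
        ¬ (DenseL c q a d ∧ DenseR c q a d)}.ncard : ℝ) ≤ ε * L := by
  classical
  obtain ⟨r, E₀, c, hr, hE₀, hc, hpair⟩ := dense_pair
  refine ⟨c, hc, fun q a hq haq => ?_⟩
  obtain ⟨G, hG⟩ : ∃ G : Set ℕ, G = {d | DenseL c q a d ∧ DenseR c q a d} := ⟨_, rfl⟩
  have key : ∃ (T : Finset Circle) (ρ : ℝ), 0 < ρ ∧ Null ({k : ℤ | (E₀ : ℤ) * k ∈ Cpl G} ∩ Bo T ρ) := by
    by_contra hne
    push Not at hne
    obtain ⟨l, hl, hgood⟩ := s_main {k : ℤ | (E₀ : ℤ) * k ∈ Cpl G} hne (2 ^ (r + r))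
    have hs := good_sums l hgood
    -- the partial sums
    set P : ℕ → ℤ := fun i => (l.take i).sum with hP
    have hPd : ∀ i j, i < j → j ≤ 2 ^ (r + r) → (E₀ : ℤ) * (P j - P i) ∈ Cpl G := by
      intro i j hij hj
      exact hs i j hij (by rw [hl]; exact hj)
    obtain ⟨m, hm⟩ : ∃ m : ℤ, ∀ i ∈ range (2 ^ (r + r) + 1), m ≤ P i := by
      obtain ⟨i, _, hi⟩ := exists_min_image (range (2 ^ (r + r) + 1)) P ⟨0, by simp⟩
      exact ⟨P i, hi⟩
    have hinj : Set.InjOn (fun i => (P i - m).toNat) ((range (2 ^ (r + r) + 1) : Finset ℕ) : Set ℕ) := by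
      intro i hi j hj hij
      rw [mem_coe] at hi hj
      have h1 := hm i hi
      have h2 := hm j hj
      simp only at hij
      have h3 : P i = P j := by omega
      rw [mem_range] at hi hj
      rcases lt_trichotomy i j with h | h | h
      · have h4 := (hPd i j h (by omega)).1
        rw [h3, sub_self, mul_zero] at h4
        exact absurd rfl h4
      · exact h
      · have h4 := (hPd j i h (by omega)).1
        rw [h3, sub_self, mul_zero] at h4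
        exact absurd rfl h4
    set A := (range (2 ^ (r + r) + 1)).image (fun i => (P i - m).toNat) with hA
    have hAc : 2 ^ (r + r) ≤ A.card := by
      rw [hA, card_image_of_injOn hinj, card_range]
      omega
    have hAd : ∀ x ∈ A, ∀ y ∈ A, x < y → E₀ * (y - x) ∉ G := by
      intro x hx y hy hxy
      obtain ⟨i, hi, rfl⟩ := mem_image.1 hx
      obtain ⟨j, hj, rfl⟩ := mem_image.1 hy
      have h1 := hm i hi
      have h2 := hm j hj
      rw [mem_range] at hi hj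
      have h3 : (((P j - m).toNat - (P i - m).toNat : ℕ) : ℤ) = P j - P i := by omega
      rcases lt_trichotomy i j with h | h | h
      · have h4 := (hPd i j h (by omega)).2
        have h5 : ((E₀ : ℤ) * (P j - P i)).natAbs = E₀ * ((P j - m).toNat - (P i - m).toNat) := by
          rw [← h3, Int.natAbs_mul, Int.natAbs_natCast, Int.natAbs_natCast]
        rw [h5] at h4
        exact h4
      · rw [h] at hxy
        exact absurd hxy (lt_irrefl _)
      · have h4 := (hPd j i h (by omega)).2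
        have h5 : ((E₀ : ℤ) * (P i - P j)).natAbs = E₀ * ((P j - m).toNat - (P i - m).toNat) := by
          have h6 : P i - P j = -(((P j - m).toNat - (P i - m).toNat : ℕ) : ℤ) := by omega
          rw [h6, Int.natAbs_mul, Int.natAbs_natCast, Int.natAbs_neg, Int.natAbs_natCast]
        rw [h5] at h4
        exact h4
    rcases ramsey (fun x y => DenseL c q a (E₀ * (y - x))) (r + r) r r le_rfl A hAc with
      ⟨S, hSA, hSc, hSP⟩ | ⟨S, hSA, hSc, hSP⟩
    · obtain ⟨s, hs, s', hs', hlt, hd⟩ := (hpair q a hq haq S hSc).2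
      apply hAd s (hSA hs) s' (hSA hs') hlt
      rw [hG]
      exact ⟨hSP s hs s' hs' hlt, hd⟩
    · obtain ⟨s, hs, s', hs', hlt, hd⟩ := (hpair q a hq haq S hSc).1
      exact hSP s hs s' hs' hlt hd
  obtain ⟨T, ρ, hρ, hnull⟩ := key
  obtain ⟨Θ, ρ', hρ', htr⟩ := transfer (q := 1) hE₀ one_pos hρ hnull
  refine ⟨Θ, ρ', hρ', syn Θ ρ' hρ', fun ε hε => ?_⟩
  obtain ⟨L₀, hL₀⟩ := htr ε hε
  refine ⟨L₀, fun L hL u => le_trans ?_ (hL₀ L hL u)⟩
  rw [Nat.cast_le]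
  refine Set.ncard_le_ncard ?_ ((Set.finite_Iic (u + L)).subset fun d hd => hd.2.1)
  rintro d ⟨h1, h2, h3, h4⟩
  refine ⟨h1, h2, h3, ?_⟩
  rintro ⟨k, hk, rfl⟩
  rw [one_mul] at h4
  rw [hG] at hk
  exact h4 hk

end Pool.Agent.E8helper66.CP
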